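import Pool.Agent.D0H17.GE.Defs

set_option autoImplicit false

/-! The multiplicity of the sums of the wide set. -/

namespace Pool.Agent.D0H17.GE

open Finset

lemma pow_gap {c x y : ℝ} (hc : 1 < c) (hy : 0 < y) (hxy : y ≤ x) : (x - y) * y ^ (c - 1) ≤ x ^ c - y ^ c := by
  have hx : 0 < x := lt_of_lt_of_le hy hxy
  have h1 : x ^ c = x * x ^ (c - 1) := by
    nth_rw 2 [← Real.rpow_one x]
    rw [← Real.rpow_add hx]
    congr 1
    ring
  have h2 : y ^ c = y * y ^ (c - 1) := by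
    nth_rw 2 [← Real.rpow_one y]
    rw [← Real.rpow_add hy]
    congr 1
    ring
  have h3 : y ^ (c - 1) ≤ x ^ (c - 1) := Real.rpow_le_rpow hy.le hxy (by linarith)
  have h4 := mul_le_mul_of_nonneg_left h3 hx.le
  rw [h1, h2]
  linarith

lemma cardA {c p0 w C : ℝ} (A : Finset ℕ) (hc : 1 < c) (hp0 : 1 ≤ p0) (hC : 0 ≤ C)
    (hA : ∀ n ∈ A, p0 ≤ (n : ℝ) ∧ |w - (n : ℝ) ^ c| < C * p0 ^ (c - 1)) : (A.card : ℝ) ≤ 2 * C + 1 := by
  rcases A.eq_empty_or_nonempty with h | h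
  · rw [h, card_empty]
    simp
    linarith
  · set n0 := A.min' h with hn0
    have hn0A : n0 ∈ A := min'_mem A h
    have hp : 0 < p0 ^ (c - 1) := Real.rpow_pos_of_pos (by linarith) _
    obtain ⟨h1, h2⟩ := hA n0 hn0A
    have hsub : A ⊆ Icc n0 (n0 + ⌊2 * C⌋₊) := by
      intro n hn
      rw [mem_Icc]
      have h3 : n0 ≤ n := min'_le A n hn
      refine ⟨h3, ?_⟩
      obtain ⟨h4, h5⟩ := hA n hn
      have h3' : (n0 : ℝ) ≤ n := by exact_mod_cast h3
      have h6 := pow_gap hc (by linarith : (0 : ℝ) < (n0 : ℝ)) h3'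
      have h7 : p0 ^ (c - 1) ≤ (n0 : ℝ) ^ (c - 1) := Real.rpow_le_rpow (by linarith) h1 (by linarith)
      have h8 : ((n : ℝ) - n0) * p0 ^ (c - 1) ≤ (n : ℝ) ^ c - (n0 : ℝ) ^ c :=
        (mul_le_mul_of_nonneg_left h7 (by linarith)).trans h6
      rw [abs_lt] at h2 h5
      have h9 : ((n : ℝ) - n0) * p0 ^ (c - 1) < 2 * C * p0 ^ (c - 1) := by linarith [h2.1, h2.2, h5.1, h5.2]
      have h10 : (n : ℝ) - n0 < 2 * C := lt_of_mul_lt_mul_right h9 hp.le
      have h11 : ((n - n0 : ℕ) : ℝ) ≤ 2 * C := by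
        rw [Nat.cast_sub h3]
        linarith
      have h12 : n - n0 ≤ ⌊2 * C⌋₊ := Nat.le_floor h11
      omega
    have h3 := card_le_card hsub
    rw [Nat.card_Icc] at h3
    have h4 : A.card ≤ ⌊2 * C⌋₊ + 1 := by omega
    have h5 : (A.card : ℝ) ≤ (⌊2 * C⌋₊ : ℝ) + 1 := by exact_mod_cast h4
    have h6 : (⌊2 * C⌋₊ : ℝ) ≤ 2 * C := Nat.floor_le (by linarith)
    linarith

lemma SF.succ {Λ K c : ℝ} {j t : ℕ} {p : ℕ → ℝ} (h : SF Λ K c j (t + 1) p) : SF Λ K c j t (fun i => p (i + 1)) where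
  big := fun i hi => h.big (i + 1) (by omega)
  top := fun i hi => h.top (i + 1) (by omega)
  anti := fun i hi => h.anti (i + 1) (by omega)
  lo := fun i hi => h.lo (i + 1) (by omega)
  hi := fun i hi => h.hi (i + 1) (by omega)
  gap := fun i hi => h.gap (i + 1) (by omega)
  lgap := fun i hi => h.lgap (i + 1) (by omega)

lemma SF.anti' {Λ K c : ℝ} {j t : ℕ} {p : ℕ → ℝ} (h : SF Λ K c j t p) {i l : ℕ} (hil : i ≤ l) (hl : l ≤ t) : p l ≤ p i := by
  induction l, hil using Nat.le_induction with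
  | base => exact le_refl _
  | succ l hl' ih => exact (h.anti l (by omega)).trans (ih (by omega))

lemma S_succ {t : ℕ} (c : ℝ) (u : Fin (t + 1) → ℕ) : S c u = (u 0 : ℝ) ^ c + S c (Fin.tail u) := by
  unfold S
  rw [Fin.sum_univ_succ]
  rfl

lemma mem_XS {R t : ℕ} {p : ℕ → ℝ} {u : Fin t → ℕ} (hp : ∀ i : Fin t, 0 ≤ p i) :
    u ∈ XS R t p ↔ ∀ i : Fin t, p i ≤ u i ∧ (u i : ℝ) ≤ R * p i := by
  unfold XS
  rw [Fintype.mem_piFinset]
  refine forall_congr' fun i => ?_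
  rw [mem_Icc, Nat.ceil_le, Nat.le_floor_iff (mul_nonneg (Nat.cast_nonneg R) (hp i))]

lemma tail_mem {R t : ℕ} {p : ℕ → ℝ} {u : Fin (t + 1) → ℕ} (hu : u ∈ XS R (t + 1) p) :
    Fin.tail u ∈ XS R t (fun i => p (i + 1)) := by
  unfold XS at hu ⊢
  rw [Fintype.mem_piFinset] at hu ⊢
  intro i
  exact hu i.succ

lemma S_nonneg {t : ℕ} (c : ℝ) (u : Fin t → ℕ) : 0 ≤ S c u := by
  unfold S
  exact sum_nonneg fun i _ => Real.rpow_nonneg (Nat.cast_nonneg _) _

lemma S_tail_le {K c : ℝ} {j R t : ℕ} {p : ℕ → ℝ} (hc : 1 < c) (hK : 1 ≤ K) (h : SF 1 K c j (t + 1) p)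
    (u : Fin (t + 1) → ℕ) (hu : u ∈ XS R (t + 1) (fun i => p (i + 1))) :
    S c u ≤ (t + 1) * (R * K) ^ c * p 0 ^ (c - 1) := by
  have hpos : ∀ i ≤ t + 1, 0 < p i := fun i hi => by linarith [h.big i hi]
  rw [mem_XS (p := fun i => p (i + 1)) (fun i => (hpos (i + 1) (by have := i.2; omega)).le)] at hu
  unfold S
  have h1 : ∀ i : Fin (t + 1), (u i : ℝ) ^ c ≤ (R * K) ^ c * p 0 ^ (c - 1) := by
    intro i
    have h2 : p (i + 1) ≤ p 1 := h.anti' (by omega) (by have := i.2; omega)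
    have h3 : (u i : ℝ) ≤ R * p 1 := (hu i).2.trans (mul_le_mul_of_nonneg_left h2 (Nat.cast_nonneg R))
    calc (u i : ℝ) ^ c ≤ (R * p 1) ^ c := Real.rpow_le_rpow (Nat.cast_nonneg _) h3 (by linarith)
      _ = (R : ℝ) ^ c * p 1 ^ c := Real.mul_rpow (Nat.cast_nonneg R) (hpos 1 (by omega)).le
      _ ≤ (R : ℝ) ^ c * (K ^ c * p 0 ^ (c - 1)) := mul_le_mul_of_nonneg_left (h.hi 0 (by omega)) (by positivity)
      _ = (R * K) ^ c * p 0 ^ (c - 1) := by
          rw [Real.mul_rpow (Nat.cast_nonneg R) (by linarith)]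
          ring
  refine (sum_le_sum fun i _ => h1 i).trans (le_of_eq ?_)
  rw [sum_const, card_univ, Fintype.card_fin, nsmul_eq_mul]
  push_cast
  ring

/-- M3 -/
theorem mult (b K CG : ℝ) (R t : ℕ) (hK : 1 ≤ K) (hCG : 0 ≤ CG) : ∃ C0 : ℝ, 0 < C0 ∧ ∀ (c : ℝ) (j : ℕ) (p : ℕ → ℝ),
    1 < c → c ≤ b + 1 → SF 1 K c j t p → ∀ w g : ℝ, g ≤ CG * p t ^ (c - 1) →
      (((XS R (t + 1) p).filter fun u => |w - S c u| < g).card : ℝ) ≤ C0 := by
  induction t with
  | zero =>
    refine ⟨2 * CG + 1, by linarith, fun c j p hc _ h w g hg => ?_⟩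
    have hp0 : 1 ≤ p 0 := h.big 0 (le_refl _)
    have hinj : Set.InjOn (fun u : Fin 1 → ℕ => u 0) ((XS R (0 + 1) p).filter fun u => |w - S c u| < g : Finset (Fin (0 + 1) → ℕ)) := by
      intro u _ v _ huv
      funext i
      rw [Fin.eq_zero i]
      exact huv
    rw [← card_image_of_injOn hinj]
    refine cardA (w := w) (c := c) (p0 := p 0) _ hc hp0 hCG ?_
    intro n hn
    rw [mem_image] at hn
    obtain ⟨u, hu, rfl⟩ := hn
    rw [mem_filter, mem_XS (fun i => by rw [Fin.eq_zero i]; simpa using (by linarith : 0 ≤ p 0))] at hu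
    have h1 := hu.1 0
    refine ⟨by simpa using h1.1, lt_of_lt_of_le ?_ hg⟩
    have h2 := hu.2
    rw [S_succ] at h2
    have h3 : S c (Fin.tail u) = 0 := by
      unfold S
      simp
    rw [h3, add_zero] at h2
    exact h2
  | succ t ih =>
    obtain ⟨C0, hC0, ih⟩ := ih
    obtain ⟨C1, hC1⟩ : ∃ C1 : ℝ, C1 = CG + (t + 1) * (R * K + 1) ^ (b + 1) := ⟨_, rfl⟩
    have hRK : (0 : ℝ) ≤ R * K := mul_nonneg (Nat.cast_nonneg R) (by linarith)
    have hC10 : 0 ≤ C1 := by rw [hC1]; positivity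
    refine ⟨C0 * (2 * C1 + 1), by positivity, fun c j p hc hcb h w g hg => ?_⟩
    have hp0 : 1 ≤ p 0 := h.big 0 (by omega)
    have hpt0 : 0 < p (t + 1) := by linarith [h.big (t + 1) (le_refl _)]
    have hple : p (t + 1) ^ (c - 1) ≤ p 0 ^ (c - 1) :=
      Real.rpow_le_rpow hpt0.le (h.anti' (by omega) (le_refl _)) (by linarith)
    set s := (XS R (t + 1 + 1) p).filter fun u => |w - S c u| < g with hs
    have himg : ((s.image fun u => u 0).card : ℝ) ≤ 2 * C1 + 1 := by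
      refine cardA (w := w) (c := c) (p0 := p 0) _ hc hp0 hC10 ?_
      intro n hn
      rw [mem_image] at hn
      obtain ⟨u, hu, rfl⟩ := hn
      rw [hs, mem_filter] at hu
      have h1 := (mem_XS (fun i => by
        have := h.big i (by have := i.2; omega)
        linarith)).1 hu.1 0
      refine ⟨by simpa using h1.1, ?_⟩
      have h2 := hu.2
      rw [S_succ] at h2
      have h3 := S_tail_le hc hK h (Fin.tail u) (tail_mem hu.1)
      have h4 := S_nonneg c (Fin.tail u)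
      have h5 : (R * K : ℝ) ^ c ≤ (R * K + 1) ^ (b + 1) := by
        calc (R * K : ℝ) ^ c ≤ (R * K + 1) ^ c := Real.rpow_le_rpow hRK (by linarith) (by linarith)
          _ ≤ (R * K + 1) ^ (b + 1) := Real.rpow_le_rpow_of_exponent_le (by linarith) hcb
      have hpp : 0 ≤ p 0 ^ (c - 1) := by positivity
      have h6 : ((t : ℝ) + 1) * (R * K) ^ c * p 0 ^ (c - 1) ≤ (t + 1) * (R * K + 1) ^ (b + 1) * p 0 ^ (c - 1) :=
        mul_le_mul_of_nonneg_right (mul_le_mul_of_nonneg_left h5 (by positivity)) hpp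
      have h7 : g ≤ CG * p 0 ^ (c - 1) := hg.trans (mul_le_mul_of_nonneg_left hple hCG)
      rw [hC1, add_mul]
      rw [abs_lt] at h2 ⊢
      constructor <;> linarith [h2.1, h2.2]
    have hfib : ∀ a ∈ s.image fun u => u 0, (s.filter fun u => u 0 = a).card ≤ ⌊C0⌋₊ := by
      intro a _
      have h1 := ih c j (fun i => p (i + 1)) hc hcb h.succ (w - (a : ℝ) ^ c) g hg
      apply Nat.le_floor
      refine le_trans ?_ h1
      have h2 : (s.filter fun u => u 0 = a).card ≤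
          ((XS R (t + 1) (fun i => p (i + 1))).filter fun v => |w - (a : ℝ) ^ c - S c v| < g).card := by
        refine card_le_card_of_injOn (fun u => Fin.tail u) ?_ ?_
        · intro u hu
          rw [mem_coe, mem_filter, hs, mem_filter] at hu
          rw [mem_coe, mem_filter]
          refine ⟨tail_mem hu.1.1, ?_⟩
          have h3 := hu.1.2
          rw [S_succ, hu.2] at h3
          rw [show w - (a : ℝ) ^ c - S c (Fin.tail u) = w - ((a : ℝ) ^ c + S c (Fin.tail u)) by ring]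
          exact h3
        · intro u hu v hv huv
          rw [mem_coe, mem_filter] at hu hv
          have h3 : Fin.cons (u 0) (Fin.tail u) = (Fin.cons (v 0) (Fin.tail v) : Fin (t + 1 + 1) → ℕ) := by
            rw [hu.2, hv.2]
            congr 1
          rw [Fin.cons_self_tail, Fin.cons_self_tail] at h3
          exact h3
      exact_mod_cast h2
    have h1 := card_le_mul_card_image s ⌊C0⌋₊ hfib
    have h2 : (s.card : ℝ) ≤ (⌊C0⌋₊ : ℝ) * ((s.image fun u => u 0).card : ℝ) := by exact_mod_cast h1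
    refine h2.trans (mul_le_mul (Nat.floor_le hC0.le) himg (Nat.cast_nonneg _) hC0.le)

end Pool.Agent.D0H17.GE
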