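import Mathlib

set_option autoImplicit false

/-! The autocorrelation of the difference of a fine and a coarse tent. -/

namespace Pool.Agent.D0H17.GE

open MeasureTheory

/-- the tent -/
noncomputable def phi (s : ℝ) : ℝ := max 0 (1 - |s|)

lemma continuous_phi : Continuous phi := continuous_const.max (continuous_const.sub continuous_abs)

lemma phi_nonneg (s : ℝ) : 0 ≤ phi s := le_max_left _ _

lemma phi_le_one (s : ℝ) : phi s ≤ 1 := max_le (by norm_num) (by linarith [abs_nonneg s])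

lemma phi_zero {s : ℝ} (h : 1 ≤ |s|) : phi s = 0 := max_eq_left (by linarith)

lemma phi_half {s : ℝ} (h : |s| ≤ 1 / 2) : 1 / 2 ≤ phi s := le_trans (by linarith) (le_max_right _ _)

lemma phi_neg (s : ℝ) : phi (-s) = phi s := by
  unfold phi
  rw [abs_neg]

lemma hasCompactSupport_phi : HasCompactSupport phi := by
  refine HasCompactSupport.intro (isCompact_Icc : IsCompact (Set.Icc (-1 : ℝ) 1)) fun x hx => ?_
  apply phi_zero
  by_contra h
  rw [not_le, abs_lt] at h
  exact hx ⟨h.1.le, h.2.le⟩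

lemma integrable_phi : Integrable phi := continuous_phi.integrable_of_hasCompactSupport hasCompactSupport_phi

lemma integral_phi_le : ∫ s, phi s ≤ 2 := by
  have h1 : ∫ s, phi s ≤ ∫ s, (Set.Icc (-1 : ℝ) 1).indicator (fun _ => (1 : ℝ)) s := by
    refine integral_mono integrable_phi ?_ fun s => ?_
    · refine (integrable_indicator_iff measurableSet_Icc).2 ?_
      exact integrableOn_const (by simp)
    · by_cases h : s ∈ Set.Icc (-1 : ℝ) 1
      · rw [Set.indicator_of_mem h]
        exact phi_le_one s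
      · rw [Set.indicator_of_notMem h]
        apply le_of_eq
        apply phi_zero
        by_contra h2
        rw [not_le, abs_lt] at h2
        exact h ⟨h2.1.le, h2.2.le⟩
  refine h1.trans (le_of_eq ?_)
  rw [integral_indicator measurableSet_Icc, setIntegral_const, smul_eq_mul, mul_one, Measure.real, Real.volume_Icc,
    ENNReal.toReal_ofReal (by norm_num)]
  norm_num

lemma integral_phi_nonneg : 0 ≤ ∫ s, phi s := integral_nonneg phi_nonneg

/-- fine tent minus the coarse tent with the same integral -/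
noncomputable def psi (ρ g : ℝ) (s : ℝ) : ℝ := phi (s / ρ) - ρ / g * phi (s / g)

lemma continuous_psi (ρ g : ℝ) : Continuous (psi ρ g) :=
  (continuous_phi.comp (continuous_id.div_const ρ)).sub
    (continuous_const.mul (continuous_phi.comp (continuous_id.div_const g)))

lemma integrable_phi_div {a : ℝ} (ha : 0 < a) : Integrable fun s => phi (s / a) :=
  integrable_phi.comp_div ha.ne'

lemma integral_phi_div {a : ℝ} (ha : 0 < a) : ∫ s, phi (s / a) = a * ∫ s, phi s := by
  rw [Measure.integral_comp_div, abs_of_pos ha, smul_eq_mul]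

lemma integrable_psi {ρ g : ℝ} (hρ : 0 < ρ) (hg : 0 < g) : Integrable (psi ρ g) :=
  (integrable_phi_div hρ).sub ((integrable_phi_div hg).const_mul _)

lemma integral_psi {ρ g : ℝ} (hρ : 0 < ρ) (hg : 0 < g) : ∫ s, psi ρ g s = 0 := by
  unfold psi
  rw [integral_sub (integrable_phi_div hρ) ((integrable_phi_div hg).const_mul _), integral_const_mul,
    integral_phi_div hρ, integral_phi_div hg]
  field_simp
  ring

lemma psi_neg (ρ g s : ℝ) : psi ρ g (-s) = psi ρ g s := by
  unfold psi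
  rw [neg_div, neg_div, phi_neg, phi_neg]

lemma phi_div_zero {a s : ℝ} (ha : 0 < a) (h : a ≤ |s|) : phi (s / a) = 0 := by
  apply phi_zero
  rw [abs_div, abs_of_pos ha, le_div_iff₀ ha]
  linarith

lemma psi_zero {ρ g s : ℝ} (hρ : 0 < ρ) (hρg : ρ ≤ g) (h : g ≤ |s|) : psi ρ g s = 0 := by
  unfold psi
  rw [phi_div_zero hρ (hρg.trans h), phi_div_zero (lt_of_lt_of_le hρ hρg) h]
  ring

lemma hasCompactSupport_psi {ρ g : ℝ} (hρ : 0 < ρ) (hρg : ρ ≤ g) : HasCompactSupport (psi ρ g) := by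
  refine HasCompactSupport.intro (isCompact_Icc : IsCompact (Set.Icc (-g) g)) fun x hx => ?_
  apply psi_zero hρ hρg
  by_contra h
  rw [not_le, abs_lt] at h
  exact hx ⟨h.1.le, h.2.le⟩

lemma abs_psi_le {ρ g : ℝ} (hρ : 0 < ρ) (hρg : ρ ≤ g) (s : ℝ) : |psi ρ g s| ≤ 1 := by
  have hg : 0 < g := lt_of_lt_of_le hρ hρg
  have h1 := phi_nonneg (s / ρ)
  have h2 := phi_le_one (s / ρ)
  have h3 := phi_nonneg (s / g)
  have h4 := phi_le_one (s / g)
  have h5 : 0 ≤ ρ / g := by positivity
  have h6 : ρ / g ≤ 1 := by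
    rw [div_le_one hg]
    exact hρg
  have h7 : 0 ≤ ρ / g * phi (s / g) := mul_nonneg h5 h3
  have h8 : ρ / g * phi (s / g) ≤ 1 := by
    calc ρ / g * phi (s / g) ≤ 1 * 1 := mul_le_mul h6 h4 h3 (by norm_num)
      _ = 1 := by norm_num
  unfold psi
  rw [abs_le]
  constructor <;> linarith

lemma integral_abs_psi {ρ g : ℝ} (hρ : 0 < ρ) (hρg : ρ ≤ g) : ∫ s, |psi ρ g s| ≤ 4 * ρ := by
  have hg : 0 < g := lt_of_lt_of_le hρ hρg
  have h5 : 0 ≤ ρ / g := by positivity
  have h1 : ∫ s, |psi ρ g s| ≤ ∫ s, (phi (s / ρ) + ρ / g * phi (s / g)) := by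
    refine integral_mono (integrable_psi hρ hg).abs ((integrable_phi_div hρ).add ((integrable_phi_div hg).const_mul _))
      fun s => ?_
    unfold psi
    have e1 := phi_nonneg (s / ρ)
    have e2 := mul_nonneg h5 (phi_nonneg (s / g))
    show |phi (s / ρ) - ρ / g * phi (s / g)| ≤ phi (s / ρ) + ρ / g * phi (s / g)
    rw [abs_le]
    constructor <;> linarith
  refine h1.trans ?_
  rw [integral_add (integrable_phi_div hρ) ((integrable_phi_div hg).const_mul _), integral_const_mul,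
    integral_phi_div hρ, integral_phi_div hg]
  have h2 : ρ / g * (g * ∫ s, phi s) = ρ * ∫ s, phi s := by field_simp
  rw [h2]
  have h3 := mul_le_mul_of_nonneg_left integral_phi_le hρ.le
  linarith

/-- the autocorrelation -/
noncomputable def AC (ρ g : ℝ) (z : ℝ) : ℝ := ∫ s, psi ρ g s * psi ρ g (z - s)

lemma AC_eq (ρ g : ℝ) : AC ρ g = convolution (psi ρ g) (psi ρ g) (ContinuousLinearMap.mul ℝ ℝ) volume := by
  funext z
  rfl

lemma continuous_AC {ρ g : ℝ} (hρ : 0 < ρ) (hρg : ρ ≤ g) : Continuous (AC ρ g) := by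
  rw [AC_eq]
  exact (hasCompactSupport_psi hρ hρg).continuous_convolution_right (ContinuousLinearMap.mul ℝ ℝ)
    (integrable_psi hρ (lt_of_lt_of_le hρ hρg)).locallyIntegrable (continuous_psi ρ g)

lemma integrable_AC {ρ g : ℝ} (hρ : 0 < ρ) (hg : 0 < g) : Integrable (AC ρ g) := by
  rw [AC_eq]
  exact (integrable_psi hρ hg).integrable_convolution (ContinuousLinearMap.mul ℝ ℝ) (integrable_psi hρ hg)

lemma integral_AC {ρ g : ℝ} (hρ : 0 < ρ) (hg : 0 < g) : ∫ z, AC ρ g z = 0 := by
  rw [AC_eq, integral_convolution (ContinuousLinearMap.mul ℝ ℝ) (integrable_psi hρ hg) (integrable_psi hρ hg)]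
  rw [integral_psi hρ hg]
  simp

lemma integral_abs_AC {ρ g : ℝ} (hρ : 0 < ρ) (hρg : ρ ≤ g) : ∫ z, |AC ρ g z| ≤ 16 * ρ ^ 2 := by
  have hg : 0 < g := lt_of_lt_of_le hρ hρg
  have h0 : Integrable (convolution (fun s => |psi ρ g s|) (fun s => |psi ρ g s|) (ContinuousLinearMap.mul ℝ ℝ) volume) :=
    (integrable_psi hρ hg).abs.integrable_convolution (ContinuousLinearMap.mul ℝ ℝ) (integrable_psi hρ hg).abs
  have h1 : ∫ z, |AC ρ g z| ≤ ∫ z, convolution (fun s => |psi ρ g s|) (fun s => |psi ρ g s|)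
      (ContinuousLinearMap.mul ℝ ℝ) volume z := by
    refine integral_mono (integrable_AC hρ hg).abs h0 fun z => ?_
    show |∫ s, psi ρ g s * psi ρ g (z - s)| ≤ ∫ s, |psi ρ g s| * |psi ρ g (z - s)|
    refine (abs_integral_le_integral_abs).trans (le_of_eq ?_)
    simp_rw [abs_mul]
  refine h1.trans ?_
  rw [integral_convolution (ContinuousLinearMap.mul ℝ ℝ) (integrable_psi hρ hg).abs (integrable_psi hρ hg).abs]
  have h2 := integral_abs_psi hρ hρg
  have h3 : 0 ≤ ∫ s, |psi ρ g s| := integral_nonneg fun _ => abs_nonneg _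
  show (∫ s, |psi ρ g s|) * (∫ s, |psi ρ g s|) ≤ 16 * ρ ^ 2
  nlinarith

lemma AC_zero {ρ g z : ℝ} (hρ : 0 < ρ) (hρg : ρ ≤ g) (hz : 2 * g ≤ |z|) : AC ρ g z = 0 := by
  unfold AC
  have h : ∀ s, psi ρ g s * psi ρ g (z - s) = 0 := by
    intro s
    rcases lt_or_ge |s| g with h1 | h1
    · have h2 : g ≤ |z - s| := by
        have := abs_sub_abs_le_abs_sub z s
        linarith
      rw [psi_zero hρ hρg h2, mul_zero]
    · rw [psi_zero hρ hρg h1, zero_mul]
  simp_rw [h]
  simp

lemma abs_AC_le {ρ g : ℝ} (hρ : 0 < ρ) (hρg : ρ ≤ g) (z : ℝ) : |AC ρ g z| ≤ 4 * ρ := by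
  have hg : 0 < g := lt_of_lt_of_le hρ hρg
  unfold AC
  refine (abs_integral_le_integral_abs).trans ?_
  refine le_trans ?_ (integral_abs_psi hρ hρg)
  refine integral_mono_of_nonneg (Filter.Eventually.of_forall fun _ => abs_nonneg _) (integrable_psi hρ hg).abs
    (Filter.Eventually.of_forall fun s => ?_)
  show |psi ρ g s * psi ρ g (z - s)| ≤ |psi ρ g s|
  rw [abs_mul]
  exact mul_le_of_le_one_right (abs_nonneg _) (abs_psi_le hρ hρg _)

lemma AC_pair (ρ g p q : ℝ) : ∫ τ, psi ρ g (p - τ) * psi ρ g (q - τ) = AC ρ g (p - q) := by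
  unfold AC
  have h1 := integral_sub_left_eq_self (fun s => psi ρ g s * psi ρ g (p - q - s)) volume p
  rw [← h1]
  refine integral_congr_ae (Filter.Eventually.of_forall fun τ => ?_)
  show psi ρ g (p - τ) * psi ρ g (q - τ) = psi ρ g (p - τ) * psi ρ g (p - q - (p - τ))
  have h2 : p - q - (p - τ) = -(q - τ) := by ring
  rw [h2, psi_neg]

lemma integrable_pair (ρ g p q : ℝ) (hρ : 0 < ρ) (hρg : ρ ≤ g) : Integrable fun τ => psi ρ g (p - τ) * psi ρ g (q - τ) := by
  have h1 : Integrable fun τ => psi ρ g (p - τ) := (integrable_psi hρ (lt_of_lt_of_le hρ hρg)).comp_sub_left p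
  refine Integrable.mul_of_top_left h1 ?_
  refine memLp_top_of_bound ((continuous_psi ρ g).measurable.comp (measurable_const.sub measurable_id)).aestronglyMeasurable 1
    (Filter.Eventually.of_forall fun τ => ?_)
  exact abs_psi_le hρ hρg _

/-- the antiderivative of the autocorrelation -/
noncomputable def Psi (ρ g : ℝ) (z : ℝ) : ℝ := ∫ x in (-(2 * g))..z, AC ρ g x

lemma hasDerivAt_Psi {ρ g : ℝ} (hρ : 0 < ρ) (hρg : ρ ≤ g) (z : ℝ) : HasDerivAt (Psi ρ g) (AC ρ g z) z :=
  intervalIntegral.integral_hasDerivAt_right ((continuous_AC hρ hρg).intervalIntegrable _ _)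
    ((continuous_AC hρ hρg).stronglyMeasurableAtFilter _ _) (continuous_AC hρ hρg).continuousAt

lemma abs_Psi_le {ρ g : ℝ} (hρ : 0 < ρ) (hρg : ρ ≤ g) (z : ℝ) : |Psi ρ g z| ≤ 16 * ρ ^ 2 := by
  refine le_trans ?_ (integral_abs_AC hρ hρg)
  unfold Psi
  rw [intervalIntegral.abs_integral_eq_abs_integral_uIoc]
  refine (abs_integral_le_integral_abs).trans ?_
  exact setIntegral_le_integral (integrable_AC hρ (lt_of_lt_of_le hρ hρg)).abs
    (Filter.Eventually.of_forall fun _ => abs_nonneg _)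

lemma Psi_zero {ρ g : ℝ} (hρ : 0 < ρ) (hρg : ρ ≤ g) {z : ℝ} (hz : 2 * g ≤ |z|) : Psi ρ g z = 0 := by
  have hg : 0 < g := lt_of_lt_of_le hρ hρg
  rcases le_total 0 z with h | h
  · rw [abs_of_nonneg h] at hz
    unfold Psi
    rw [intervalIntegral.integral_of_le (by linarith), setIntegral_eq_integral_of_forall_compl_eq_zero, integral_AC hρ hg]
    intro x hx
    apply AC_zero hρ hρg
    rw [Set.mem_Ioc, not_and_or, not_lt, not_le] at hx
    rcases hx with h1 | h1
    · rw [abs_of_nonpos (by linarith)]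
      linarith
    · rw [abs_of_pos (by linarith)]
      linarith
  · rw [abs_of_nonpos h] at hz
    unfold Psi
    rw [intervalIntegral.integral_symm, neg_eq_zero]
    have h0 : ∀ x ∈ Set.uIcc z (-(2 * g)), AC ρ g x = 0 := by
      intro x hx
      rw [Set.uIcc_of_le (by linarith), Set.mem_Icc] at hx
      apply AC_zero hρ hρg
      rw [abs_of_nonpos (by linarith)]
      linarith
    rw [intervalIntegral.integral_congr h0]
    simp

/-- integration by parts -/
theorem ibp {ρ g : ℝ} (hρ : 0 < ρ) (hρg : ρ ≤ g) {p0 p1 : ℝ} (hp : p0 ≤ p1) (F F1 F2 : ℝ → ℝ)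
    (hF : ∀ c, HasDerivAt F (F1 c) c) (hF1 : ∀ c, HasDerivAt F1 (F2 c) c) (hF2 : Continuous F2) {l M : ℝ} (hl : 0 < l)
    (h : ∀ c ∈ Set.Icc p0 p1, |F c| ≤ 2 * g → l ≤ |F1 c| ∧ |F2 c| ≤ M * F1 c ^ 2) :
    |∫ c in p0..p1, AC ρ g (F c)| ≤
      16 * ρ ^ 2 / l * ((if |F p0| ≤ 2 * g then 1 else 0) + (if |F p1| ≤ 2 * g then 1 else 0)) +
        16 * ρ ^ 2 * M * ∫ c in p0..p1, (if |F c| ≤ 2 * g then 1 else 0) := by
  have hg : 0 < g := lt_of_lt_of_le hρ hρg
  have cF : Continuous F := continuous_iff_continuousAt.2 fun c => (hF c).continuousAt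
  have cF1 : Continuous F1 := continuous_iff_continuousAt.2 fun c => (hF1 c).continuousAt
  set Θ : ℝ → ℝ := fun c => Psi ρ g (F c) / F1 c with hΘ
  set Ξ : ℝ → ℝ := fun c => Psi ρ g (F c) * F2 c / F1 c ^ 2 with hΞ
  have cPsi : Continuous (Psi ρ g) := continuous_iff_continuousAt.2 fun c => (hasDerivAt_Psi hρ hρg c).continuousAt
  have hne : ∀ c ∈ Set.Icc p0 p1, |F c| ≤ 2 * g → F1 c ≠ 0 := by
    intro c hc h1 h2
    have := (h c hc h1).1
    rw [h2, abs_zero] at this
    linarith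
  have hder : ∀ c ∈ Set.Icc p0 p1, HasDerivAt Θ (AC ρ g (F c) - Ξ c) c := by
    intro c hc
    by_cases h1 : |F c| ≤ 2 * g
    · have h2 := hne c hc h1
      have h3 : HasDerivAt (fun c => Psi ρ g (F c)) (AC ρ g (F c) * F1 c) c :=
        (hasDerivAt_Psi hρ hρg (F c)).comp c (hF c)
      have h4 := h3.div (hF1 c) h2
      refine h4.congr_deriv ?_
      simp only [hΞ]
      field_simp
    · rw [not_le] at h1
      have h2 : ∀ᶠ x in nhds c, 2 * g < |F x| := (continuous_abs.comp cF).continuousAt.eventually_const_lt h1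
      have h3 : Θ =ᶠ[nhds c] fun _ => 0 := by
        filter_upwards [h2] with x hx
        simp only [hΘ]
        rw [Psi_zero hρ hρg hx.le, zero_div]
      have h4 : AC ρ g (F c) - Ξ c = 0 := by
        simp only [hΞ]
        rw [AC_zero hρ hρg h1.le, Psi_zero hρ hρg h1.le]
        simp
      rw [h4]
      exact (hasDerivAt_const c (0 : ℝ)).congr_of_eventuallyEq h3
  have cΞ : ContinuousOn Ξ (Set.Icc p0 p1) := by
    intro c hc
    apply ContinuousAt.continuousWithinAt
    by_cases h1 : |F c| ≤ 2 * g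
    · have h2 := hne c hc h1
      exact ((cPsi.comp cF).continuousAt.mul hF2.continuousAt).div (cF1.continuousAt.pow 2) (pow_ne_zero 2 h2)
    · rw [not_le] at h1
      have h2 : ∀ᶠ x in nhds c, 2 * g < |F x| := (continuous_abs.comp cF).continuousAt.eventually_const_lt h1
      have h3 : Ξ =ᶠ[nhds c] fun _ => 0 := by
        filter_upwards [h2] with x hx
        simp only [hΞ]
        rw [Psi_zero hρ hρg hx.le]
        simp
      exact (continuousAt_const).congr h3.symm
  have cAC : Continuous fun c => AC ρ g (F c) := (continuous_AC hρ hρg).comp cF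
  have iΞ : IntervalIntegrable Ξ volume p0 p1 := by
    apply ContinuousOn.intervalIntegrable
    rw [Set.uIcc_of_le hp]
    exact cΞ
  have iAC : IntervalIntegrable (fun c => AC ρ g (F c)) volume p0 p1 := cAC.intervalIntegrable _ _
  have hftc : ∫ c in p0..p1, (AC ρ g (F c) - Ξ c) = Θ p1 - Θ p0 := by
    refine intervalIntegral.integral_eq_sub_of_hasDerivAt (fun c hc => ?_) (iAC.sub iΞ)
    rw [Set.uIcc_of_le hp] at hc
    exact hder c hc
  rw [intervalIntegral.integral_sub iAC iΞ] at hftc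
  have hbd : ∀ c ∈ Set.Icc p0 p1, |Θ c| ≤ 16 * ρ ^ 2 / l * (if |F c| ≤ 2 * g then 1 else 0) := by
    intro c hc
    split_ifs with h1
    · have h2 := (h c hc h1).1
      simp only [hΘ]
      rw [abs_div, mul_one]
      exact div_le_div₀ (by positivity) (abs_Psi_le hρ hρg _) hl h2
    · simp only [hΘ]
      rw [Psi_zero hρ hρg (not_le.1 h1).le]
      simp
  have hcl : MeasurableSet {c : ℝ | |F c| ≤ 2 * g} := (isClosed_le (continuous_abs.comp cF) continuous_const).measurableSet
  have iind : IntervalIntegrable (fun c => if |F c| ≤ 2 * g then (1 : ℝ) else 0) volume p0 p1 := by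
    have h1 : (fun c => if |F c| ≤ 2 * g then (1 : ℝ) else 0) = {c : ℝ | |F c| ≤ 2 * g}.indicator (fun _ => (1 : ℝ)) := by
      funext c
      rw [Set.indicator_apply]
      rfl
    rw [h1, intervalIntegrable_iff]
    exact (integrableOn_const (by
      rw [Set.uIoc_of_le hp, Real.volume_Ioc]
      exact ENNReal.ofReal_ne_top)).indicator hcl
  have hΞbd : |∫ c in p0..p1, Ξ c| ≤ 16 * ρ ^ 2 * M * ∫ c in p0..p1, (if |F c| ≤ 2 * g then (1 : ℝ) else 0) := by
    rw [← intervalIntegral.integral_const_mul]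
    refine (intervalIntegral.abs_integral_le_integral_abs hp).trans ?_
    refine intervalIntegral.integral_mono_on hp iΞ.abs (iind.const_mul _) fun c hc => ?_
    split_ifs with h1
    · obtain ⟨h2, h3⟩ := h c hc h1
      have h4 := hne c hc h1
      have h5 : 0 < F1 c ^ 2 := by positivity
      simp only [hΞ]
      rw [abs_div, abs_mul, abs_of_pos h5, div_le_iff₀ h5, mul_one]
      calc |Psi ρ g (F c)| * |F2 c| ≤ 16 * ρ ^ 2 * (M * F1 c ^ 2) :=
            mul_le_mul (abs_Psi_le hρ hρg _) h3 (abs_nonneg _) (by positivity)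
        _ = _ := by ring
    · simp only [hΞ]
      rw [Psi_zero hρ hρg (not_le.1 h1).le]
      simp
  have h1 := hbd p0 ⟨le_refl _, hp⟩
  have h2 := hbd p1 ⟨hp, le_refl _⟩
  have h3 : ∫ c in p0..p1, AC ρ g (F c) = Θ p1 - Θ p0 + ∫ c in p0..p1, Ξ c := by linarith
  rw [h3]
  rw [abs_le] at h1 h2 hΞbd ⊢
  constructor <;> linarith [h1.1, h1.2, h2.1, h2.2, hΞbd.1, hΞbd.2]

end Pool.Agent.D0H17.GE
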