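import Mathlib

set_option autoImplicit false

/-! Waring's problem with a generic real exponent: definitions. -/

namespace Pool.Agent.D0H17.GE

open Finset

/-- the scales: `p_0 = 2 ^ j`, `p_{i+1} = K p_i ^ (1 - 1 / β)` -/
noncomputable def pp (K β : ℝ) (j : ℕ) : ℕ → ℝ
  | 0 => 2 ^ j
  | i + 1 => K * pp K β j i ^ (1 - 1 / β)

/-- the sum of the real powers -/
noncomputable def S {t : ℕ} (c : ℝ) (u : Fin t → ℕ) : ℝ := ∑ i, (u i : ℝ) ^ c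

/-- its first derivative with respect to the exponent -/
noncomputable def S1 {t : ℕ} (c : ℝ) (u : Fin t → ℕ) : ℝ := ∑ i, (u i : ℝ) ^ c * Real.log (u i)

/-- its second derivative with respect to the exponent -/
noncomputable def S2 {t : ℕ} (c : ℝ) (u : Fin t → ℕ) : ℝ := ∑ i, (u i : ℝ) ^ c * Real.log (u i) ^ 2

/-- the wide index set: `u_i ∈ [p_i, R p_i]` -/
noncomputable def XS (R : ℕ) (t : ℕ) (p : ℕ → ℝ) : Finset (Fin t → ℕ) :=
  Fintype.piFinset fun i => Icc ⌈p i⌉₊ ⌊(R : ℝ) * p i⌋₊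

/-- the thin index set: `v_i ∈ [p_i / 8, p_i / 4]`, `H ∣ v_i` -/
noncomputable def YS (H : ℕ) (t : ℕ) (p : ℕ → ℝ) : Finset (Fin t → ℕ) :=
  Fintype.piFinset fun i => (Icc ⌈p i / 8⌉₊ ⌊p i / 4⌋₊).filter fun n => H ∣ n

/-- what is used about the scales `p_0, ..., p_T`, for one exponent `c` -/
structure SF (Λ K c : ℝ) (j T : ℕ) (p : ℕ → ℝ) : Prop where
  big : ∀ i ≤ T, Λ ≤ p i
  top : ∀ i ≤ T, p i ≤ 2 ^ j
  anti : ∀ i < T, p (i + 1) ≤ p i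
  lo : ∀ i < T, K ^ c / 2 * p i ^ (c - 1) ≤ p (i + 1) ^ c
  hi : ∀ i < T, p (i + 1) ^ c ≤ K ^ c * p i ^ (c - 1)
  gap : ∀ i < T, Λ * j * p (i + 1) ^ (c - 1) ≤ p i ^ (c - 1)
  lgap : ∀ i < T, Λ ≤ Real.log (p i) - Real.log (p (i + 1))

end Pool.Agent.D0H17.GE
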