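import Pool.Agent.D0H17.GE.Three
import Pool.Agent.N84.MD.A

set_option autoImplicit false

/-! The Hausdorff dimension of the set of bad exponents. -/

namespace Pool.Agent.D0H17.GE

open Finset MeasureTheory Filter
open scoped ENNReal

/-- the anchor of the scale -/
noncomputable def bj (j : ℕ) (c : ℝ) : ℝ := ((⌊3 * (j : ℝ) * c⌋₊ : ℝ) - 1) / (3 * j)

lemma bj_le {j : ℕ} {c : ℝ} (hj : 1 ≤ j) (hc : 0 ≤ c) : bj j c + 1 / (3 * j) ≤ c ∧ c ≤ bj j c + 2 / (3 * j) := by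
  have hj0 : (0 : ℝ) < 3 * j := by
    have : (1 : ℝ) ≤ j := by exact_mod_cast hj
    linarith
  have h1 : ((⌊3 * (j : ℝ) * c⌋₊ : ℕ) : ℝ) ≤ 3 * j * c := Nat.floor_le (by positivity)
  have h2 : 3 * (j : ℝ) * c < (⌊3 * (j : ℝ) * c⌋₊ : ℕ) + 1 := Nat.lt_floor_add_one _
  unfold bj
  constructor
  · rw [← add_div, div_le_iff₀ hj0]
    linarith
  · rw [← add_div, le_div_iff₀ hj0]
    linarith

lemma expo_le {a b β : ℝ} (ha : 1 < a) (haβ : a ≤ β) (hβb : β ≤ b) (t t' : ℕ) {δ : ℝ}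
    (hδ : δ = 1 - (2 * (1 - 1 / b) ^ t + (1 - 1 / b) ^ t')) (hδ0 : 0 < δ) :
    β * (2 * (1 - 1 / β) ^ t + (1 - 1 / β) ^ t' - 1) ≤ -(a * δ) := by
  have hβ : 1 < β := lt_of_lt_of_le ha haβ
  have h1 : 0 ≤ 1 - 1 / β := by
    have : 1 / β ≤ 1 := by
      rw [div_le_one (by linarith)]
      exact hβ.le
    linarith
  have h2 : 1 - 1 / β ≤ 1 - 1 / b := by
    have : 1 / b ≤ 1 / β := one_div_le_one_div_of_le (by linarith) hβb
    linarith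
  have h3 : (1 - 1 / β) ^ t ≤ (1 - 1 / b) ^ t := pow_le_pow_left₀ h1 h2 t
  have h4 : (1 - 1 / β) ^ t' ≤ (1 - 1 / b) ^ t' := pow_le_pow_left₀ h1 h2 t'
  have h5 : 2 * (1 - 1 / β) ^ t + (1 - 1 / β) ^ t' - 1 ≤ -δ := by
    rw [hδ]
    linarith
  calc β * (2 * (1 - 1 / β) ^ t + (1 - 1 / β) ^ t' - 1) ≤ β * (-δ) := mul_le_mul_of_nonneg_left h5 (by linarith)
    _ = -(β * δ) := by ring
    _ ≤ -(a * δ) := neg_le_neg (mul_le_mul_of_nonneg_right haβ hδ0.le)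

lemma mem_cell (N : ℕ) (hN : 0 < N) {c : ℝ} (hc0 : 0 ≤ c) : c ∈ MR.cell N ⌊c * N⌋₊ := by
  have hN0 : (0 : ℝ) < N := by exact_mod_cast hN
  unfold MR.cell
  rw [Set.mem_Ico, div_le_iff₀ hN0, lt_div_iff₀ hN0]
  exact ⟨Nat.floor_le (by positivity), Nat.lt_floor_add_one _⟩

lemma summable_pow_geom (m : ℕ) {r : ℝ} (hr0 : 0 < r) (hr1 : r < 1) (C : ℝ) :
    Summable fun j : ℕ => C * (((j : ℝ) + 1) ^ m * r ^ j) := by
  refine Summable.mul_left C ?_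
  have h1 := summable_pow_mul_geometric_of_norm_lt_one (R := ℝ) m (r := r)
    (by rw [Real.norm_of_nonneg hr0.le]; exact hr1)
  have h2 := (summable_nat_add_iff 1).2 h1
  have h3 := h2.mul_left (r⁻¹)
  refine h3.congr fun j => ?_
  push_cast
  rw [pow_succ r j]
  field_simp

open Classical in
/-- the cells with a bad exponent, for one anchor -/
noncomputable def GG (R : ℕ) (K A1 A2 : ℝ) (t t' : ℕ) (ρ b : ℝ) (N j l : ℕ) : Finset ℕ :=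
  (range (⌈(b + 1) * N⌉₊ + 1)).filter fun z => ∃ c ∈ BadE R K A1 A2 t t' (((l : ℝ) - 1) / (3 * j)) j ρ,
    ((l : ℝ) - 1) / (3 * j) + 1 / (3 * j) ≤ c ∧ c ≤ ((l : ℝ) - 1) / (3 * j) + 2 / (3 * j) ∧ c ∈ MR.cell N z

open Classical in
/-- the anchors -/
noncomputable def LL (a b : ℝ) (j : ℕ) : Finset ℕ :=
  (range (⌊3 * (j : ℝ) * b⌋₊ + 1)).filter fun l : ℕ => a ≤ ((l : ℝ) - 1) / (3 * j) ∧ ((l : ℝ) - 1) / (3 * j) ≤ b

lemma mem_LL {a b : ℝ} {j l : ℕ} : l ∈ LL a b j ↔ l < ⌊3 * (j : ℝ) * b⌋₊ + 1 ∧ a ≤ ((l : ℝ) - 1) / (3 * j) ∧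
    ((l : ℝ) - 1) / (3 * j) ≤ b := by
  unfold LL
  rw [mem_filter, mem_range]

lemma LL_card (a : ℝ) {b : ℝ} (hb : 1 < b) {j : ℕ} (hj : 1 ≤ j) : ((LL a b j).card : ℝ) ≤ (3 * b + 1) * j := by
  classical
  have hj0 : (1 : ℝ) ≤ j := by exact_mod_cast hj
  have h1 : (LL a b j).card ≤ ⌊3 * (j : ℝ) * b⌋₊ + 1 := by
    unfold LL
    refine (card_filter_le _ _).trans ?_
    rw [card_range]
  have h2 : ((⌊3 * (j : ℝ) * b⌋₊ : ℕ) : ℝ) ≤ 3 * j * b := Nat.floor_le (by positivity)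
  have h3 : ((LL a b j).card : ℝ) ≤ ((⌊3 * (j : ℝ) * b⌋₊ + 1 : ℕ) : ℝ) := Nat.cast_le.2 h1
  rw [Nat.cast_add, Nat.cast_one] at h3
  linarith

open Classical in
/-- the cells with a bad exponent -/
noncomputable def FF (R : ℕ) (K A1 A2 : ℝ) (t t' : ℕ) (ρ a b : ℝ) (N j : ℕ) : Finset ℕ :=
  (LL a b j).biUnion (GG R K A1 A2 t t' ρ b N j)

theorem dimE (a a1 b : ℝ) (ha : 1 < a) (haa : a < a1) (hab : a1 ≤ b) (R t t' : ℕ) (K A1 A2 ρ : ℝ) (hR : 4 ≤ R)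
    (hK : (b + 1) * (R + 1) ≤ K) (hA1 : 2 ^ (b + 2) + 2 * (t + 1) + 2 * (t' + 1) + 1 ≤ A1) (hA2 : A2 + 1 ≤ R)
    (hA20 : 0 ≤ A2) (hρ : 0 < ρ) (hρ4 : ρ ≤ 1 / 4) (δ D : ℝ)
    (hδ : δ = 1 - (2 * (1 - 1 / b) ^ (t + 1) + (1 - 1 / b) ^ (t' + 1))) (hδ0 : 0 < δ)
    (hD0 : 0 < D) (hD1 : D < 1) (hD : b * (1 - D) < a * δ) :
    dimH {c : ℝ | ∃ᶠ j in atTop, c ∈ BadE R K A1 A2 t t' (bj j c) j ρ ∧ a1 ≤ c ∧ c ≤ b} ≤ ENNReal.ofReal D := by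
  classical
  obtain ⟨C, j0, hC, hj0, hmain⟩ := one_scale a b ha (haa.le.trans hab) R t t' K A1 A2 ρ hR hK hA1 hA2 hA20 hρ hρ4
  have hb1 : 1 < b := by linarith
  -- the grid
  obtain ⟨N, hN⟩ : ∃ N : ℕ → ℕ, ∀ j, N j = ⌈((j : ℝ) + 1) ^ 2 * ((2 : ℝ) ^ j) ^ b⌉₊ := ⟨_, fun _ => rfl⟩
  have hPb : ∀ j : ℕ, (1 : ℝ) ≤ ((2 : ℝ) ^ j) ^ b := fun j =>
    Real.one_le_rpow (one_le_pow₀ (by norm_num)) (by linarith)
  have hPos : ∀ j : ℕ, (1 : ℝ) ≤ ((j : ℝ) + 1) ^ 2 * ((2 : ℝ) ^ j) ^ b := by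
    intro j
    have h1 : (0 : ℝ) ≤ j := Nat.cast_nonneg j
    exact one_le_mul_of_one_le_of_one_le (one_le_pow₀ (by linarith)) (hPb j)
  have hNpos : ∀ j, 0 < N j := by
    intro j
    rw [hN]
    exact Nat.ceil_pos.2 (by linarith [hPos j])
  have hNlo : ∀ j : ℕ, (j : ℝ) ^ 2 * ((2 : ℝ) ^ j) ^ b ≤ N j := by
    intro j
    have h1 : (0 : ℝ) ≤ j := Nat.cast_nonneg j
    have h2 : ((j : ℝ) + 1) ^ 2 * ((2 : ℝ) ^ j) ^ b ≤ N j := by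
      rw [hN]
      exact Nat.le_ceil _
    refine le_trans (mul_le_mul_of_nonneg_right (pow_le_pow_left₀ h1 (by linarith) 2) ?_) h2
    linarith [hPb j]
  have hNup : ∀ j : ℕ, (N j : ℝ) ≤ 2 * ((j : ℝ) + 1) ^ 2 * ((2 : ℝ) ^ j) ^ b := by
    intro j
    have h1 : ((⌈((j : ℝ) + 1) ^ 2 * ((2 : ℝ) ^ j) ^ b⌉₊ : ℕ) : ℝ) < ((j : ℝ) + 1) ^ 2 * ((2 : ℝ) ^ j) ^ b + 1 :=
      Nat.ceil_lt_add_one (by linarith [hPos j])
    rw [hN]
    have := hPos j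
    linarith
  have hmono : {c : ℝ | ∃ᶠ j in atTop, c ∈ BadE R K A1 A2 t t' (bj j c) j ρ ∧ a1 ≤ c ∧ c ≤ b} ⊆
      {c | ∃ᶠ j in atTop, ∃ z ∈ FF R K A1 A2 t t' ρ a b (N j) j, c ∈ MR.cell (N j) z} := by
    intro c hc
    have hc' : ∃ᶠ j in atTop, c ∈ BadE R K A1 A2 t t' (bj j c) j ρ ∧ a1 ≤ c ∧ c ≤ b := hc
    have hev : ∀ᶠ j : ℕ in atTop, 1 ≤ j ∧ 2 / (3 * (a1 - a)) ≤ j :=
      (eventually_ge_atTop 1).and (tendsto_natCast_atTop_atTop.eventually_ge_atTop _)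
    refine (hc'.and_eventually hev).mono ?_
    rintro j ⟨⟨hbad, hc1, hc2⟩, hj1, hj2⟩
    have hj1' : (1 : ℝ) ≤ j := by exact_mod_cast hj1
    have hc0 : 0 ≤ c := by linarith
    have h3 := bj_le hj1 hc0
    have hbe : bj j c = ((⌊3 * (j : ℝ) * c⌋₊ : ℝ) - 1) / (3 * j) := rfl
    refine ⟨⌊c * N j⌋₊, ?_, mem_cell (N j) (hNpos j) hc0⟩
    unfold FF
    rw [mem_biUnion]
    refine ⟨⌊3 * (j : ℝ) * c⌋₊, ?_, ?_⟩
    · rw [mem_LL, ← hbe]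
      refine ⟨?_, ?_, ?_⟩
      · have h4 : ⌊3 * (j : ℝ) * c⌋₊ ≤ ⌊3 * (j : ℝ) * b⌋₊ :=
          Nat.floor_le_floor (mul_le_mul_of_nonneg_left hc2 (by positivity))
        omega
      · have h5 : 2 / (3 * (j : ℝ)) ≤ a1 - a := by
          rw [div_le_iff₀ (by linarith)] at hj2
          rw [div_le_iff₀ (by linarith)]
          linarith
        linarith [h3.2]
      · have h6 : 0 ≤ 1 / (3 * (j : ℝ)) := by positivity
        linarith [h3.1]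
    · unfold GG
      rw [mem_filter, mem_range, ← hbe]
      refine ⟨?_, c, hbad, h3.1, h3.2, mem_cell (N j) (hNpos j) hc0⟩
      have h7 : (⌊c * N j⌋₊ : ℝ) ≤ c * N j := Nat.floor_le (by positivity)
      have h8 : c * (N j : ℝ) ≤ (b + 1) * N j := mul_le_mul_of_nonneg_right (by linarith) (Nat.cast_nonneg _)
      have h9 : (b + 1) * (N j : ℝ) ≤ (⌈(b + 1) * (N j : ℝ)⌉₊ : ℝ) := Nat.le_ceil _
      have h10 : (⌊c * N j⌋₊ : ℝ) ≤ (⌈(b + 1) * (N j : ℝ)⌉₊ : ℝ) := by linarith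
      have h11 : ⌊c * N j⌋₊ ≤ ⌈(b + 1) * (N j : ℝ)⌉₊ := by exact_mod_cast h10
      omega
  refine (dimH_mono hmono).trans ?_
  refine Pool.Agent.N84.MD.core (fun j z => MR.cell (N j) z) D hD0
    (fun j => FF R K A1 A2 t t' ρ a b (N j) j) (fun j => 1 / (N j : ℝ))
    (fun j => by positivity) (fun j z _ => MR.cell_diam (N j) z (hNpos j)) ?_
  obtain ⟨m, hm⟩ : ∃ m : ℕ, m = 2 + 2 * (t + t' + 2) := ⟨_, rfl⟩
  -- the count at one scale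
  have hcount : ∀ j : ℕ, j0 ≤ j → ((FF R K A1 A2 t t' ρ a b (N j) j).card : ℝ) ≤
      ((3 * b + 1) * j) * (N j * (C * (j : ℝ) ^ m * ((2 : ℝ) ^ j) ^ (-(a * δ)))) := by
    intro j hj
    have hj1 : 1 ≤ j := by omega
    have hj1' : (1 : ℝ) ≤ j := by exact_mod_cast hj1
    have hP1 : (1 : ℝ) ≤ (2 : ℝ) ^ j := one_le_pow₀ (by norm_num)
    obtain ⟨B, hB⟩ : ∃ B : ℝ, B = N j * (C * (j : ℝ) ^ m * ((2 : ℝ) ^ j) ^ (-(a * δ))) := ⟨_, rfl⟩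
    have hB0 : 0 ≤ B := by
      rw [hB]
      positivity
    have hone : ∀ l ∈ LL a b j, ((GG R K A1 A2 t t' ρ b (N j) j l).card : ℝ) ≤ B := by
      intro l hl
      rw [mem_LL] at hl
      obtain ⟨_, hl1, hl2⟩ := hl
      have h1 := hmain j hj _ hl1 hl2 (N j) (hNlo j) (GG R K A1 A2 t t' ρ b (N j) j l) (by
        intro z hz
        unfold GG at hz
        rw [mem_filter] at hz
        exact hz.2)
      rw [← hm] at h1
      refine h1.trans ?_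
      rw [hB]
      refine mul_le_mul_of_nonneg_left ?_ (Nat.cast_nonneg _)
      refine mul_le_mul_of_nonneg_left ?_ (by positivity)
      exact Real.rpow_le_rpow_of_exponent_le hP1 (expo_le ha hl1 hl2 (t + 1) (t' + 1) hδ hδ0)
    have hcard : ((FF R K A1 A2 t t' ρ a b (N j) j).card : ℝ) ≤
        ∑ l ∈ LL a b j, ((GG R K A1 A2 t t' ρ b (N j) j l).card : ℝ) := by
      have h1 : (FF R K A1 A2 t t' ρ a b (N j) j).card ≤
          ∑ l ∈ LL a b j, (GG R K A1 A2 t t' ρ b (N j) j l).card := by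
        unfold FF
        exact card_biUnion_le
      rw [← Nat.cast_sum]
      exact Nat.cast_le.2 h1
    have hnum := LL_card a hb1 hj1
    refine hcard.trans ((sum_le_sum hone).trans ?_)
    rw [sum_const, nsmul_eq_mul, ← hB]
    exact mul_le_mul_of_nonneg_right hnum hB0
  -- summability
  obtain ⟨r, hr⟩ : ∃ r : ℝ, r = (2 : ℝ) ^ (b * (1 - D) - a * δ) := ⟨_, rfl⟩
  have hr0 : 0 < r := by rw [hr]; positivity
  have hr1 : r < 1 := by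
    rw [hr]
    exact Real.rpow_lt_one_of_one_lt_of_neg (by norm_num) (by linarith)
  have hS := summable_pow_geom (m + 3) hr0 hr1 ((3 * b + 1) * C * 2)
  refine Summable.of_norm_bounded_eventually_nat hS ?_
  filter_upwards [eventually_ge_atTop j0] with j hj
  rw [Real.norm_of_nonneg (by positivity)]
  have hNp : (0 : ℝ) < (N j : ℝ) := by exact_mod_cast hNpos j
  have hj0' : (0 : ℝ) ≤ j := Nat.cast_nonneg j
  have hP0 : (0 : ℝ) < (2 : ℝ) ^ j := by positivity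
  have h1 : (1 / (N j : ℝ)) ^ D = (N j : ℝ) ^ (-D) := by
    rw [one_div, Real.inv_rpow hNp.le, Real.rpow_neg hNp.le]
  have h2 : (N j : ℝ) * (N j : ℝ) ^ (-D) = (N j : ℝ) ^ (1 - D) := by
    nth_rw 1 [← Real.rpow_one (N j : ℝ)]
    rw [← Real.rpow_add hNp]
    congr 1
  have h3 : (N j : ℝ) ^ (1 - D) ≤ 2 * ((j : ℝ) + 1) ^ 2 * ((2 : ℝ) ^ j) ^ (b * (1 - D)) := by
    calc (N j : ℝ) ^ (1 - D) ≤ (2 * ((j : ℝ) + 1) ^ 2 * ((2 : ℝ) ^ j) ^ b) ^ (1 - D) :=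
          Real.rpow_le_rpow hNp.le (hNup j) (by linarith)
      _ = (2 * ((j : ℝ) + 1) ^ 2) ^ (1 - D) * (((2 : ℝ) ^ j) ^ b) ^ (1 - D) :=
          Real.mul_rpow (by positivity) (by positivity)
      _ ≤ (2 * ((j : ℝ) + 1) ^ 2) ^ (1 : ℝ) * (((2 : ℝ) ^ j) ^ b) ^ (1 - D) := by
          refine mul_le_mul_of_nonneg_right ?_ (by positivity)
          refine Real.rpow_le_rpow_of_exponent_le ?_ (by linarith)
          nlinarith
      _ = _ := by rw [Real.rpow_one, ← Real.rpow_mul hP0.le]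
  have h4 : ((2 : ℝ) ^ j) ^ (b * (1 - D)) * ((2 : ℝ) ^ j) ^ (-(a * δ)) = r ^ j := by
    rw [← Real.rpow_add hP0, hr, ← Real.rpow_natCast, ← Real.rpow_mul (by norm_num), ← Real.rpow_natCast,
      ← Real.rpow_mul (by norm_num)]
    congr 1
    ring
  have h5 : (j : ℝ) ^ m * j ≤ ((j : ℝ) + 1) ^ m * ((j : ℝ) + 1) :=
    mul_le_mul (pow_le_pow_left₀ hj0' (by linarith) m) (by linarith) hj0' (by positivity)
  calc _ ≤ ((3 * b + 1) * j) * (N j * (C * (j : ℝ) ^ m * ((2 : ℝ) ^ j) ^ (-(a * δ)))) * (1 / (N j : ℝ)) ^ D :=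
        mul_le_mul_of_nonneg_right (hcount j hj) (by positivity)
    _ = (3 * b + 1) * C * ((j : ℝ) ^ m * j) * ((2 : ℝ) ^ j) ^ (-(a * δ)) * ((N j : ℝ) * (N j : ℝ) ^ (-D)) := by
        rw [h1]; ring
    _ = (3 * b + 1) * C * ((j : ℝ) ^ m * j) * ((2 : ℝ) ^ j) ^ (-(a * δ)) * (N j : ℝ) ^ (1 - D) := by rw [h2]
    _ ≤ (3 * b + 1) * C * (((j : ℝ) + 1) ^ m * ((j : ℝ) + 1)) * ((2 : ℝ) ^ j) ^ (-(a * δ)) *
        (2 * ((j : ℝ) + 1) ^ 2 * ((2 : ℝ) ^ j) ^ (b * (1 - D))) := by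
        refine mul_le_mul ?_ h3 (by positivity) (by positivity)
        refine mul_le_mul_of_nonneg_right ?_ (by positivity)
        exact mul_le_mul_of_nonneg_left h5 (by positivity)
    _ = (3 * b + 1) * C * 2 * (((j : ℝ) + 1) ^ (m + 3) *
        (((2 : ℝ) ^ j) ^ (b * (1 - D)) * ((2 : ℝ) ^ j) ^ (-(a * δ)))) := by ring
    _ = _ := by rw [h4]

end Pool.Agent.D0H17.GE
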