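import Pool.Agent.D0H17.GE.DimE

set_option autoImplicit false

/-! The final theorem for a generic exponent. -/

namespace Pool.Agent.D0H17.GE

open Finset MeasureTheory Filter
open scoped ENNReal

/-- every large real number is arbitrarily close to a sum of `s` `c`-th powers of positive integers -/
def CovE (s : ℕ) (c : ℝ) : Prop :=
  ∀ η : ℝ, 0 < η → ∃ τ₀ : ℝ, ∀ τ : ℝ, τ₀ ≤ τ → ∃ x : Fin s → ℕ, (∀ i, 1 ≤ x i) ∧ |∑ i, (x i : ℝ) ^ c - τ| < η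

lemma append_sum {a b : ℕ} (c : ℝ) (x : Fin a → ℕ) (y : Fin b → ℕ) :
    ∑ l, ((Fin.append x y l : ℕ) : ℝ) ^ c = ∑ i, (x i : ℝ) ^ c + ∑ j, (y j : ℝ) ^ c := by
  rw [Fin.sum_univ_add]
  simp only [Fin.append_left, Fin.append_right]

lemma append_pos {a b : ℕ} {x : Fin a → ℕ} {y : Fin b → ℕ} (hx : ∀ i, 1 ≤ x i) (hy : ∀ i, 1 ≤ y i) :
    ∀ l, 1 ≤ (Fin.append x y l : ℕ) := by
  intro l
  refine Fin.addCases (fun a => ?_) (fun a => ?_) l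
  · rw [Fin.append_left]; exact hx a
  · rw [Fin.append_right]; exact hy a

lemma CovE.succ {s : ℕ} {c : ℝ} (h : CovE s c) : CovE (s + 1) c := by
  intro η hη
  obtain ⟨τ₀, h⟩ := h η hη
  refine ⟨τ₀ + 1, fun τ hτ => ?_⟩
  obtain ⟨x, hx, h1⟩ := h (τ - 1) (by linarith)
  refine ⟨Fin.append x (fun _ : Fin 1 => 1), append_pos hx fun _ => le_rfl, ?_⟩
  rw [append_sum]
  have e : ∑ j : Fin 1, (((fun _ : Fin 1 => (1 : ℕ)) j : ℕ) : ℝ) ^ c = 1 := by simp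
  rw [e]
  refine lt_of_le_of_lt (le_of_eq ?_) h1
  congr 1
  ring

lemma CovE.mono {s s' : ℕ} {c : ℝ} (h : CovE s c) (hs : s ≤ s') : CovE s' c := by
  induction s', hs using Nat.le_induction with
  | base => exact h
  | succ n _ ih => exact ih.succ

/-- from real targets to integers -/
lemma CovE.floor {s : ℕ} {c : ℝ} (h : CovE s c) : ∃ n₀ : ℕ, ∀ n : ℕ, n₀ ≤ n →
    ∃ x : Fin s → ℕ, (∀ i, 1 ≤ x i) ∧ n = ⌊∑ i, (x i : ℝ) ^ c⌋₊ := by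
  obtain ⟨τ₀, h⟩ := h (1 / 2) (by norm_num)
  refine ⟨⌈τ₀⌉₊, fun n hn => ?_⟩
  have h1 : τ₀ ≤ (n : ℝ) + 1 / 2 := by
    have h2 : τ₀ ≤ (⌈τ₀⌉₊ : ℝ) := Nat.le_ceil _
    have h3 : ((⌈τ₀⌉₊ : ℕ) : ℝ) ≤ n := by exact_mod_cast hn
    linarith
  obtain ⟨x, hx, hxy⟩ := h _ h1
  refine ⟨x, hx, ?_⟩
  rw [abs_lt] at hxy
  symm
  rw [Nat.floor_eq_iff (by positivity)]
  constructor <;> linarith [hxy.1, hxy.2]

lemma XS_pos {K β : ℝ} {R j t : ℕ} (hK : 1 ≤ K) (hβ : 1 < β) {u : Fin t → ℕ} (hu : u ∈ XS R t (pp K β j)) :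
    ∀ i, 1 ≤ u i := by
  intro i
  have h1 := (pp_le K β hK hβ j i).2
  have h2 : (0 : ℝ) < ((2 : ℝ) ^ j) ^ ((1 - 1 / β) ^ (i : ℕ)) := by positivity
  unfold XS at hu
  rw [Fintype.mem_piFinset] at hu
  have h3 := (mem_Icc.1 (hu i)).1
  have h4 : 0 < ⌈pp K β j i⌉₊ := Nat.ceil_pos.2 (by linarith)
  omega

lemma YS_pos {K β : ℝ} {H j t : ℕ} (hK : 1 ≤ K) (hβ : 1 < β) {u : Fin t → ℕ} (hu : u ∈ YS H t (pp K β j)) :
    ∀ i, 1 ≤ u i := by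
  intro i
  have h1 := (pp_le K β hK hβ j i).2
  have h2 : (0 : ℝ) < ((2 : ℝ) ^ j) ^ ((1 - 1 / β) ^ (i : ℕ)) := by positivity
  unfold YS at hu
  rw [Fintype.mem_piFinset] at hu
  have h3 := (mem_Icc.1 (mem_filter.1 (hu i)).1).1
  have h4 : 0 < ⌈pp K β j i / 8⌉₊ := Nat.ceil_pos.2 (by linarith)
  omega

lemma window {c : ℝ} {j : ℕ} (hj : 1 ≤ j) (hc : 0 ≤ c) :
    ((2 : ℝ) ^ j) ^ bj j c ≤ ((2 : ℝ) ^ c) ^ j ∧ ((2 : ℝ) ^ c) ^ j ≤ 2 * ((2 : ℝ) ^ j) ^ bj j c := by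
  obtain ⟨h1, h2⟩ := bj_le hj hc
  have hj0 : (1 : ℝ) ≤ j := by exact_mod_cast hj
  have e1 : ((2 : ℝ) ^ j) ^ bj j c = (2 : ℝ) ^ (j * bj j c) := by
    rw [← Real.rpow_natCast, ← Real.rpow_mul (by norm_num)]
  have e2 : ((2 : ℝ) ^ c) ^ j = (2 : ℝ) ^ (j * c) := by
    rw [← Real.rpow_natCast, ← Real.rpow_mul (by norm_num)]
    congr 1
    ring
  have h3 : (j : ℝ) * (1 / (3 * j)) = 1 / 3 := by field_simp
  have h4 : (j : ℝ) * (2 / (3 * j)) = 2 / 3 := by field_simp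
  have h5 : (j : ℝ) * (bj j c + 1 / (3 * j)) ≤ j * c := mul_le_mul_of_nonneg_left h1 (by linarith)
  have h6 : (j : ℝ) * c ≤ j * (bj j c + 2 / (3 * j)) := mul_le_mul_of_nonneg_left h2 (by linarith)
  rw [mul_add, h3] at h5
  rw [mul_add, h4] at h6
  rw [e1, e2]
  constructor
  · exact Real.rpow_le_rpow_of_exponent_le (by norm_num) (by linarith)
  · calc (2 : ℝ) ^ ((j : ℝ) * c) ≤ (2 : ℝ) ^ (1 + (j : ℝ) * bj j c) :=
          Real.rpow_le_rpow_of_exponent_le (by norm_num) (by linarith)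
      _ = 2 * (2 : ℝ) ^ ((j : ℝ) * bj j c) := by
          rw [Real.rpow_add (by norm_num), Real.rpow_one]

theorem finE_int (a a1 b : ℝ) (ha : 1 < a) (haa : a < a1) (hab : a1 ≤ b) (t t' : ℕ) (δ D : ℝ)
    (hδ : δ = 1 - (2 * (1 - 1 / b) ^ (t + 1) + (1 - 1 / b) ^ (t' + 1))) (hδ0 : 0 < δ)
    (hD0 : 0 < D) (hD1 : D < 1) (hD : b * (1 - D) < a * δ) :
    dimH {c : ℝ | a1 ≤ c ∧ c ≤ b ∧ ¬ CovE ((t + 1) + (t + 1) + (t' + 1)) c} ≤ ENNReal.ofReal D := by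
  have hb1 : 1 < b := by linarith
  obtain ⟨A1, hA1⟩ : ∃ A1 : ℝ, A1 = 2 ^ (b + 2) + 2 * (t + 1) + 2 * (t' + 1) + 1 := ⟨_, rfl⟩
  obtain ⟨A2, hA2⟩ : ∃ A2 : ℝ, A2 = 2 ^ (b + 2) * A1 := ⟨_, rfl⟩
  obtain ⟨R, hR⟩ : ∃ R : ℕ, R = ⌈A2⌉₊ + 4 := ⟨_, rfl⟩
  obtain ⟨K, hK⟩ : ∃ K : ℝ, K = (b + 1) * (R + 1) := ⟨_, rfl⟩
  have hA10 : 0 < A1 := by rw [hA1]; positivity
  have hA20 : 0 < A2 := by rw [hA2]; positivity
  have hR4 : 4 ≤ R := by omega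
  have hRA : A2 + 1 ≤ R := by
    rw [hR]
    push_cast
    have := Nat.le_ceil A2
    linarith
  have hK1 : 1 ≤ K := by
    rw [hK]
    have h1 : (0 : ℝ) ≤ R := Nat.cast_nonneg R
    nlinarith
  have hdim := fun H : ℕ => dimE a a1 b ha haa hab R t t' K A1 A2 (1 / (8 * ((H : ℝ) + 1))) hR4 hK.ge hA1.ge hRA hA20.le
    (by positivity) (by
      rw [div_le_div_iff₀ (by positivity) (by norm_num)]
      have h1 : (0 : ℝ) ≤ H := Nat.cast_nonneg H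
      linarith) δ D hδ hδ0 hD0 hD1 hD
  have hsub : {c : ℝ | a1 ≤ c ∧ c ≤ b ∧ ¬ CovE ((t + 1) + (t + 1) + (t' + 1)) c} ⊆
      ⋃ H : ℕ, {c : ℝ | ∃ᶠ j in atTop, c ∈ BadE R K A1 A2 t t' (bj j c) j (1 / (8 * ((H : ℝ) + 1))) ∧
        a1 ≤ c ∧ c ≤ b} := by
    rintro c ⟨hc1, hc2, hc⟩
    by_contra hcon
    apply hc
    simp only [Set.mem_iUnion, not_exists] at hcon
    intro η hη
    obtain ⟨H, hH⟩ := exists_nat_one_div_lt hη
    have hev := hcon H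
    simp only [Set.mem_ofPred_eq, not_frequently] at hev
    have hc1' : 1 < c := by linarith
    have hc0 : 0 ≤ c := by linarith
    -- the anchors are larger than one
    have hev2 : ∀ᶠ j : ℕ in atTop, 1 ≤ j ∧ 2 / (3 * (a1 - a)) ≤ j :=
      (eventually_ge_atTop 1).and (tendsto_natCast_atTop_atTop.eventually_ge_atTop _)
    obtain ⟨J, hJ⟩ := eventually_atTop.1 (hev.and hev2)
    have hy1 : (1 : ℝ) < 2 ^ c := Real.one_lt_rpow (by norm_num) (by linarith)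
    refine ⟨A1 * ((2 : ℝ) ^ c) ^ J, fun τ hτ => ?_⟩
    have hτx : ((2 : ℝ) ^ c) ^ J ≤ τ / A1 := by
      rw [le_div_iff₀ hA10]
      linarith
    have hx1 : 1 ≤ τ / A1 := le_trans (one_le_pow₀ hy1.le) hτx
    obtain ⟨j, hj1, hj2⟩ := exists_nat_pow_near hx1 hy1
    have hJj : J ≤ j := by
      by_contra hlt
      have h3 : ((2 : ℝ) ^ c) ^ (j + 1) ≤ ((2 : ℝ) ^ c) ^ J := pow_le_pow_right₀ hy1.le (by omega)
      linarith
    obtain ⟨hnot, hj3, hj4⟩ := hJ j hJj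
    have hj0' : (1 : ℝ) ≤ j := by exact_mod_cast hj3
    obtain ⟨hw1, hw2⟩ := window hj3 hc0
    have hτ1 : A1 * ((2 : ℝ) ^ j) ^ bj j c ≤ τ := by
      rw [le_div_iff₀ hA10] at hj1
      calc A1 * ((2 : ℝ) ^ j) ^ bj j c ≤ A1 * ((2 : ℝ) ^ c) ^ j := mul_le_mul_of_nonneg_left hw1 hA10.le
        _ ≤ τ := by linarith
    have hτ2 : τ ≤ A2 * ((2 : ℝ) ^ j) ^ bj j c := by
      rw [div_lt_iff₀ hA10] at hj2
      have h5 : (2 : ℝ) ^ c * 2 ≤ 2 ^ (b + 2) := by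
        calc (2 : ℝ) ^ c * 2 = 2 ^ (c + 1) := by rw [Real.rpow_add (by norm_num), Real.rpow_one]
          _ ≤ _ := Real.rpow_le_rpow_of_exponent_le (by norm_num) (by linarith)
      have h6 : 0 ≤ ((2 : ℝ) ^ j) ^ bj j c := by positivity
      calc τ ≤ ((2 : ℝ) ^ c) ^ (j + 1) * A1 := hj2.le
        _ = (2 : ℝ) ^ c * A1 * ((2 : ℝ) ^ c) ^ j := by ring
        _ ≤ (2 : ℝ) ^ c * A1 * (2 * ((2 : ℝ) ^ j) ^ bj j c) := mul_le_mul_of_nonneg_left hw2 (by positivity)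
        _ = ((2 : ℝ) ^ c * 2) * (A1 * ((2 : ℝ) ^ j) ^ bj j c) := by ring
        _ ≤ 2 ^ (b + 2) * (A1 * ((2 : ℝ) ^ j) ^ bj j c) := mul_le_mul_of_nonneg_right h5 (by positivity)
        _ = A2 * ((2 : ℝ) ^ j) ^ bj j c := by rw [hA2]; ring
    have hβ1 : 1 < bj j c := by
      have h5 : 2 / (3 * (j : ℝ)) ≤ a1 - a := by
        rw [div_le_iff₀ (by linarith)] at hj4
        rw [div_le_iff₀ (by linarith)]
        linarith
      linarith [(bj_le hj3 hc0).2]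
    have hex : ∃ u ∈ XS R (t + 1) (pp K (bj j c) j), ∃ v ∈ YS (j ^ 2) (t + 1) (pp K (bj j c) j),
        ∃ z ∈ YS (j ^ 2) (t' + 1) (pp K (bj j c) j), |S c u + S c v + S c z - τ| < 3 * (1 / (8 * ((H : ℝ) + 1))) := by
      by_contra hno
      apply hnot
      refine ⟨⟨τ, hτ1, hτ2, ?_⟩, hc1, hc2⟩
      intro u hu v hv z hz
      by_contra hc
      exact hno ⟨u, hu, v, hv, z, hz, not_le.1 hc⟩
    obtain ⟨u, hu, v, hv, z, hz, hlt⟩ := hex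
    refine ⟨Fin.append (Fin.append u v) z,
      append_pos (append_pos (XS_pos hK1 hβ1 hu) (YS_pos hK1 hβ1 hv)) (YS_pos hK1 hβ1 hz), ?_⟩
    rw [append_sum, append_sum]
    refine lt_of_lt_of_le hlt ?_
    have h1 : 3 * (1 / (8 * ((H : ℝ) + 1))) ≤ 1 / ((H : ℝ) + 1) := by
      rw [mul_one_div, div_le_div_iff₀ (by positivity) (by positivity)]
      have h2 : (0 : ℝ) ≤ H := Nat.cast_nonneg H
      nlinarith
    linarith
  refine (dimH_mono hsub).trans ?_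
  rw [dimH_iUnion]
  exact iSup_le hdim

theorem finE_D (b : ℝ) (t t' : ℕ) (hb : 1 < b) (D : ℝ) (hD1 : D < 1)
    (hD : 2 * (1 - 1 / b) ^ (t + 1) + (1 - 1 / b) ^ (t' + 1) < D) :
    dimH {c : ℝ | 1 < c ∧ c ≤ b ∧ ¬ CovE ((t + 1) + (t + 1) + (t' + 1)) c} ≤ ENNReal.ofReal D := by
  obtain ⟨δ, hδ⟩ : ∃ δ : ℝ, δ = 1 - (2 * (1 - 1 / b) ^ (t + 1) + (1 - 1 / b) ^ (t' + 1)) := ⟨_, rfl⟩
  have hth : 0 < 1 - 1 / b := by
    have : 1 / b < 1 := by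
      rw [div_lt_one (by linarith)]
      exact hb
    linarith
  have hD0 : 0 < D := lt_trans (by positivity) hD
  have hδD : 1 - D < δ := by rw [hδ]; linarith
  have hD' : 0 < 1 - D := by linarith
  have hδ0 : 0 < δ := by linarith
  have hsub : {c : ℝ | 1 < c ∧ c ≤ b ∧ ¬ CovE ((t + 1) + (t + 1) + (t' + 1)) c} ⊆
      ⋃ q : ℚ × ℚ × ℚ, {c : ℝ | (1 < (q.1 : ℝ) ∧ (q.1 : ℝ) < (q.2.1 : ℝ) ∧ (q.2.2 : ℝ) * (1 - D) < q.1 * δ) ∧
        (q.2.1 : ℝ) ≤ c ∧ c ≤ min (q.2.2 : ℝ) b ∧ ¬ CovE ((t + 1) + (t + 1) + (t' + 1)) c} := by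
    rintro c ⟨hc1, hc2, hc⟩
    have hc0 : 0 < c := by linarith
    have h1 : max 1 (c * (1 - D) / δ) < c := by
      refine max_lt hc1 ?_
      rw [div_lt_iff₀ hδ0]
      exact mul_lt_mul_of_pos_left hδD hc0
    obtain ⟨q0, hq0, hq0c⟩ := exists_rat_btwn h1
    obtain ⟨q1, hq1, hq1c⟩ := exists_rat_btwn hq0c
    have h2 : c < q0 * δ / (1 - D) := by
      rw [lt_div_iff₀ hD']
      have h3 := lt_of_le_of_lt (le_max_right _ _) hq0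
      rw [div_lt_iff₀ hδ0] at h3
      exact h3
    obtain ⟨q2, hq2, hq2c⟩ := exists_rat_btwn h2
    rw [lt_div_iff₀ hD'] at hq2c
    simp only [Set.mem_iUnion]
    exact ⟨(q0, q1, q2), ⟨lt_of_le_of_lt (le_max_left _ _) hq0, hq1, hq2c⟩, hq1c.le, le_min hq2.le hc2, hc⟩
  refine (dimH_mono hsub).trans ?_
  rw [dimH_iUnion]
  refine iSup_le fun q => ?_
  by_cases hq : (1 < (q.1 : ℝ) ∧ (q.1 : ℝ) < (q.2.1 : ℝ) ∧ (q.2.2 : ℝ) * (1 - D) < q.1 * δ) ∧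
      (q.2.1 : ℝ) ≤ min (q.2.2 : ℝ) b
  · obtain ⟨⟨h1, h2, h3⟩, h4⟩ := hq
    obtain ⟨b', hb'⟩ : ∃ b' : ℝ, b' = min (q.2.2 : ℝ) b := ⟨_, rfl⟩
    have hb'1 : 1 < b' := by rw [hb']; linarith
    have hb'b : b' ≤ b := by rw [hb']; exact min_le_right _ _
    have hb'q : b' ≤ q.2.2 := by rw [hb']; exact min_le_left _ _
    have hth' : 0 ≤ 1 - 1 / b' := by
      have : 1 / b' ≤ 1 := by
        rw [div_le_one (by linarith)]
        exact hb'1.le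
      linarith
    have hth2 : 1 - 1 / b' ≤ 1 - 1 / b := by
      have : 1 / b ≤ 1 / b' := one_div_le_one_div_of_le (by linarith) hb'b
      linarith
    obtain ⟨δ', hδ'⟩ : ∃ δ' : ℝ, δ' = 1 - (2 * (1 - 1 / b') ^ (t + 1) + (1 - 1 / b') ^ (t' + 1)) := ⟨_, rfl⟩
    have hδδ' : δ ≤ δ' := by
      have h5 := pow_le_pow_left₀ hth' hth2 (t + 1)
      have h6 := pow_le_pow_left₀ hth' hth2 (t' + 1)
      rw [hδ, hδ']
      linarith
    have h5 : b' * (1 - D) < q.1 * δ' := by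
      calc b' * (1 - D) ≤ q.2.2 * (1 - D) := mul_le_mul_of_nonneg_right hb'q hD'.le
        _ < q.1 * δ := h3
        _ ≤ q.1 * δ' := mul_le_mul_of_nonneg_left hδδ' (by linarith)
    rw [← hb'] at h4
    refine (dimH_mono ?_).trans (finE_int q.1 q.2.1 b' h1 h2 h4 t t' δ' D hδ' (by linarith) hD0 hD1 h5)
    rintro c ⟨_, hc1, hc2, hc3⟩
    exact ⟨hc1, by rw [hb']; exact hc2, hc3⟩
  · have hempty : {c : ℝ | (1 < (q.1 : ℝ) ∧ (q.1 : ℝ) < (q.2.1 : ℝ) ∧ (q.2.2 : ℝ) * (1 - D) < q.1 * δ) ∧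
        (q.2.1 : ℝ) ≤ c ∧ c ≤ min (q.2.2 : ℝ) b ∧ ¬ CovE ((t + 1) + (t + 1) + (t' + 1)) c} = ∅ := by
      ext c
      simp only [Set.mem_ofPred_eq, Set.mem_empty_iff_false, iff_false]
      rintro ⟨h1, h2, h3, _⟩
      exact hq ⟨h1, h2.trans h3⟩
    rw [hempty, dimH_empty]
    exact bot_le

/-- the general theorem -/
theorem finE (b : ℝ) (t t' : ℕ) (hb : 1 < b) (ht : 1 ≤ t) (ht' : 1 ≤ t') :
    dimH {c : ℝ | 1 < c ∧ c ≤ b ∧ ¬ CovE (2 * t + t') c} ≤ ENNReal.ofReal (2 * (1 - 1 / b) ^ t + (1 - 1 / b) ^ t') := by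
  obtain ⟨t, rfl⟩ : ∃ n, t = n + 1 := ⟨t - 1, by omega⟩
  obtain ⟨t', rfl⟩ : ∃ n, t' = n + 1 := ⟨t' - 1, by omega⟩
  have hth : 0 < 1 - 1 / b := by
    have : 1 / b < 1 := by
      rw [div_lt_one (by linarith)]
      exact hb
    linarith
  set s : ℝ := 2 * (1 - 1 / b) ^ (t + 1) + (1 - 1 / b) ^ (t' + 1) with hs
  have hs0 : 0 ≤ s := by
    simp only [hs]
    positivity
  rw [show 2 * (t + 1) + (t' + 1) = (t + 1) + (t + 1) + (t' + 1) by ring]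
  rcases le_or_gt 1 s with h1s | h1s
  · refine (dimH_mono (Set.subset_univ _)).trans ?_
    rw [Real.dimH_univ]
    rw [show (1 : ℝ≥0∞) = ENNReal.ofReal 1 by simp]
    exact ENNReal.ofReal_le_ofReal h1s
  by_contra hcon
  rw [not_le] at hcon
  obtain ⟨r, hr1, hr2⟩ := ENNReal.lt_iff_exists_nnreal_btwn.1 hcon
  have hr : s < r := by
    have h1 := hr1
    rw [← ENNReal.ofReal_coe_nnreal, ENNReal.ofReal_lt_ofReal_iff_of_nonneg hs0] at h1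
    exact h1
  set D : ℝ := min (r : ℝ) ((s + 1) / 2) with hD
  have hD1 : D < 1 := lt_of_le_of_lt (min_le_right _ _) (by linarith)
  have hDs : s < D := lt_min hr (by linarith)
  have hDr : D ≤ r := min_le_left _ _
  have hle := finE_D b t t' hb D hD1 hDs
  have hle2 : ENNReal.ofReal D ≤ r := by
    rw [← ENNReal.ofReal_coe_nnreal]
    exact ENNReal.ofReal_le_ofReal hDr
  exact absurd hr2 (not_lt.2 (hle.trans hle2))

end Pool.Agent.D0H17.GE
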