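import Pool.Agent.D0H17.GE.Mult
import Pool.Agent.D0H65.GE.M1
import Pool.Agent.D0H65.GE.M4
import Pool.Agent.D0H30.GE.Cover
import Pool.Agent.D0H37.GE.M5
import Pool.Agent.D0H37.GE.M5T

set_option autoImplicit false

namespace Pool.Agent.D0H17.GE

open Finset

/-- M1 -/
theorem facts (a b K Λ : ℝ) (ha : 1 < a) (hab : a ≤ b) (hK : 1 ≤ K) (T : ℕ) : ∃ j0 : ℕ, 1 ≤ j0 ∧ ∀ j : ℕ, j0 ≤ j →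
    ∀ β : ℝ, a ≤ β → β ≤ b → (∀ c : ℝ, β ≤ c → c ≤ β + 1 / j → SF Λ K c j T (pp K β j)) ∧
      ∀ i ≤ T, 32 * (j : ℝ) ^ 2 ≤ pp K β j i :=
  Pool.Agent.D0H65.GE.facts a b K Λ ha hab hK T

/-- M1b -/
theorem pp_le (K β : ℝ) (hK : 1 ≤ K) (hβ : 1 < β) (j i : ℕ) :
    pp K β j i ≤ K ^ i * ((2 : ℝ) ^ j) ^ ((1 - 1 / β) ^ i) ∧ ((2 : ℝ) ^ j) ^ ((1 - 1 / β) ^ i) ≤ pp K β j i :=
  Pool.Agent.D0H65.GE.pp_le K β hK hβ j i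

/-- M2 -/
theorem cover (b K Λ c : ℝ) (R t j : ℕ) (p : ℕ → ℝ) (hc : 1 < c) (hcb : c ≤ b + 1) (hR : 4 ≤ R)
    (hK : (b + 1) * (R + 1) ≤ K) (hΛ : 2 * (2 * K) ^ (b + 1) ≤ Λ) (h : SF Λ K c j t p) (w : ℝ)
    (hw1 : (2 * p 0) ^ c ≤ w) (hw2 : w ≤ (R * p 0) ^ c) :
    ∃ u ∈ XS R (t + 1) p, |w - S c u| ≤ c * (((R : ℝ) + 1) * p t) ^ (c - 1) :=
  Pool.Agent.D0H30.GE.cover b K Λ c R t j p hc hcb hR hK hΛ h w hw1 hw2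

/-- M4 (upper bound) -/
theorem card_XS_le (b K : ℝ) (R t : ℕ) (hK : 1 ≤ K) : ∃ C0 : ℝ, 0 < C0 ∧ ∀ (c : ℝ) (j : ℕ) (p : ℕ → ℝ),
    1 < c → c ≤ b + 1 → SF 1 K c j t p → ((XS R (t + 1) p).card : ℝ) * p t ^ (c - 1) ≤ C0 * p 0 ^ c :=
  Pool.Agent.D0H65.GE.card_XS_le b K R t hK

/-- M4 (lower bound) -/
theorem card_YS_ge (b K : ℝ) (t : ℕ) (hK : 1 ≤ K) : ∃ κ : ℝ, 0 < κ ∧ ∀ (c : ℝ) (j H : ℕ) (p : ℕ → ℝ),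
    1 < c → c ≤ b + 1 → 1 ≤ H → SF 1 K c j t p → (∀ i ≤ t, 32 * (H : ℝ) ≤ p i) →
      κ * p 0 ^ c ≤ ((YS H (t + 1) p).card : ℝ) * p t ^ (c - 1) * (H : ℝ) ^ (t + 1) :=
  Pool.Agent.D0H65.GE.card_YS_ge b K t hK

/-- M5a: the sums of the thin set are separated -/
theorem sep (b K : ℝ) (t : ℕ) (hK : 1 ≤ K) : ∃ H0 : ℝ, 0 < H0 ∧ ∀ (c : ℝ) (j H : ℕ) (p : ℕ → ℝ),
    1 < c → c ≤ b + 1 → H0 ≤ H → SF 8 K c j t p → ∀ v ∈ YS H (t + 1) p, ∀ v' ∈ YS H (t + 1) p, v ≠ v' →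
      1 ≤ |S c v - S c v'| :=
  Pool.Agent.D0H37.GE.sep b K t hK

/-- M5: transversality -/
theorem transv (b K CG : ℝ) (R t : ℕ) (hK : 1 ≤ K) (hCG : 0 ≤ CG) : ∃ κ M Λ H0 : ℝ, 0 < κ ∧ 0 < M ∧ 8 ≤ Λ ∧ 0 < H0 ∧
    ∀ (β c : ℝ) (j H : ℕ) (p : ℕ → ℝ), 1 < β → β ≤ c → c ≤ b + 1 → 1 ≤ j → H0 * j ≤ H →
      SF Λ K c j t p → SF Λ K β j t p →
      ∀ u ∈ XS R (t + 1) p, ∀ u' ∈ XS R (t + 1) p, ∀ v ∈ YS H (t + 1) p, ∀ v' ∈ YS H (t + 1) p, v ≠ v' →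
        |S c u + S c v - (S c u' + S c v')| ≤ CG * p t ^ (c - 1) →
        κ * |S β v - S β v'| ≤ |S1 c u + S1 c v - (S1 c u' + S1 c v')| ∧
        |S2 c u + S2 c v - (S2 c u' + S2 c v')| * |S β v - S β v'| ≤
          M * (j : ℝ) ^ 2 * (S1 c u + S1 c v - (S1 c u' + S1 c v')) ^ 2 :=
  Pool.Agent.D0H37.GE.transv b K CG R t hK hCG

end Pool.Agent.D0H17.GE
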