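import Pool.Agent.D0H17.GE.Conv

set_option autoImplicit false

/-! The second moment over a parameter, for two families of functions of the parameter. -/

namespace Pool.Agent.D0H17.GE

open MeasureTheory Finset

variable {ι κ : Type}

/-- fine count minus the normalised coarse count -/
noncomputable def RR (ρ g : ℝ) (X : Finset ι) (Y : Finset κ) (x : ι → ℝ) (y : κ → ℝ) (τ : ℝ) : ℝ :=
  ∑ p ∈ X ×ˢ Y, psi ρ g (x p.1 + y p.2 - τ)

/-- the second moment over the targets -/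
noncomputable def VV (ρ g : ℝ) (X : Finset ι) (Y : Finset κ) (x : ι → ℝ) (y : κ → ℝ) : ℝ :=
  ∑ p ∈ X ×ˢ Y, ∑ q ∈ X ×ˢ Y, AC ρ g (x p.1 + y p.2 - (x q.1 + y q.2))

lemma integrable_RR_sq {ρ g : ℝ} (hρ : 0 < ρ) (hρg : ρ ≤ g) (X : Finset ι) (Y : Finset κ) (x : ι → ℝ) (y : κ → ℝ) :
    Integrable fun τ => RR ρ g X Y x y τ ^ 2 := by
  have h1 : (fun τ => RR ρ g X Y x y τ ^ 2) = fun τ => ∑ p ∈ X ×ˢ Y, ∑ q ∈ X ×ˢ Y,
      psi ρ g (x p.1 + y p.2 - τ) * psi ρ g (x q.1 + y q.2 - τ) := by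
    funext τ
    unfold RR
    rw [sq, sum_mul_sum]
  rw [h1]
  exact integrable_finsetSum _ fun p _ => integrable_finsetSum _ fun q _ => integrable_pair ρ g _ _ hρ hρg

lemma integral_RR_sq {ρ g : ℝ} (hρ : 0 < ρ) (hρg : ρ ≤ g) (X : Finset ι) (Y : Finset κ) (x : ι → ℝ) (y : κ → ℝ) :
    ∫ τ, RR ρ g X Y x y τ ^ 2 = VV ρ g X Y x y := by
  have h1 : (fun τ => RR ρ g X Y x y τ ^ 2) = fun τ => ∑ p ∈ X ×ˢ Y, ∑ q ∈ X ×ˢ Y,
      psi ρ g (x p.1 + y p.2 - τ) * psi ρ g (x q.1 + y q.2 - τ) := by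
    funext τ
    unfold RR
    rw [sq, sum_mul_sum]
  rw [h1, integral_finsetSum _ fun p _ => integrable_finsetSum _ fun q _ => integrable_pair ρ g _ _ hρ hρg]
  unfold VV
  refine sum_congr rfl fun p _ => ?_
  rw [integral_finsetSum _ fun q _ => integrable_pair ρ g _ _ hρ hρg]
  refine sum_congr rfl fun q _ => ?_
  rw [AC_pair]

lemma VV_nonneg {ρ g : ℝ} (hρ : 0 < ρ) (hρg : ρ ≤ g) (X : Finset ι) (Y : Finset κ) (x : ι → ℝ) (y : κ → ℝ) :
    0 ≤ VV ρ g X Y x y := by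
  rw [← integral_RR_sq hρ hρg]
  exact integral_nonneg fun _ => sq_nonneg _

lemma continuous_VV {ρ g : ℝ} (hρ : 0 < ρ) (hρg : ρ ≤ g) (X : Finset ι) (Y : Finset κ) (x : ι → ℝ → ℝ) (y : κ → ℝ → ℝ)
    (hx : ∀ i, Continuous (x i)) (hy : ∀ k, Continuous (y k)) :
    Continuous fun c => VV ρ g X Y (fun i => x i c) (fun k => y k c) := by
  unfold VV
  refine continuous_finsetSum _ fun p _ => continuous_finsetSum _ fun q _ => ?_
  exact (continuous_AC hρ hρg).comp (((hx _).add (hy _)).sub ((hx _).add (hy _)))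

lemma ind_ii {F : ℝ → ℝ} (hF : Continuous F) (g p0 p1 : ℝ) :
    IntervalIntegrable (fun c => if |F c| ≤ 2 * g then (1 : ℝ) else 0) volume p0 p1 := by
  have hcl : MeasurableSet {c : ℝ | |F c| ≤ 2 * g} := (isClosed_le (continuous_abs.comp hF) continuous_const).measurableSet
  have h1 : (fun c => if |F c| ≤ 2 * g then (1 : ℝ) else 0) = {c : ℝ | |F c| ≤ 2 * g}.indicator (fun _ => (1 : ℝ)) := by
    funext c
    rw [Set.indicator_apply]
    rfl
  rw [h1, intervalIntegrable_iff]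
  exact (integrableOn_const (by
    rw [Set.uIoc, Real.volume_Ioc]
    exact ENNReal.ofReal_ne_top)).indicator hcl

open Classical in
/-- the average of the second moment -/
theorem second_moment {ρ g : ℝ} (hρ : 0 < ρ) (hρg : ρ ≤ g) {p0 p1 : ℝ} (hp : p0 ≤ p1) (X : Finset ι) (Y : Finset κ)
    (x : ι → ℝ → ℝ) (y : κ → ℝ → ℝ) (hx : ∀ i, Continuous (x i)) (hy : ∀ k, Continuous (y k)) (C0 : ℝ) (hC0 : 0 ≤ C0)
    (hX : ∀ c ∈ Set.Icc p0 p1, ∀ w : ℝ, ((X.filter fun i => |w - x i c| ≤ 2 * g).card : ℝ) ≤ C0)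
    (d : κ → κ → ℝ) (Lg κ0 M0 : ℝ) (hκ0 : 0 < κ0) (hM0 : 0 ≤ M0) (hd : ∀ k ∈ Y, ∀ k' ∈ Y, k' ≠ k → 0 < d k k')
    (hsum : ∀ k ∈ Y, ∑ k' ∈ Y.filter (fun k' => k' ≠ k), 1 / d k k' ≤ Lg)
    (hpair : ∀ i ∈ X, ∀ i' ∈ X, ∀ k ∈ Y, ∀ k' ∈ Y, k' ≠ k → ∃ F1 F2 : ℝ → ℝ,
      (∀ c, HasDerivAt (fun c => x i c + y k c - (x i' c + y k' c)) (F1 c) c) ∧ (∀ c, HasDerivAt F1 (F2 c) c) ∧
      Continuous F2 ∧ ∀ c ∈ Set.Icc p0 p1, |x i c + y k c - (x i' c + y k' c)| ≤ 2 * g →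
        κ0 * d k k' ≤ |F1 c| ∧ |F2 c| * d k k' ≤ M0 * F1 c ^ 2) :
    ∫ c in p0..p1, VV ρ g X Y (fun i => x i c) (fun k => y k c) ≤
      (X.card : ℝ) * Y.card * (C0 * (4 * ρ * (p1 - p0) + 16 * ρ ^ 2 * (2 / κ0 + M0 * (p1 - p0)) * Lg)) := by
  have hg : 0 < g := lt_of_lt_of_le hρ hρg
  have cF : ∀ i i' k k', Continuous fun c => x i c + y k c - (x i' c + y k' c) := fun i i' k k' =>
    ((hx _).add (hy _)).sub ((hx _).add (hy _))
  have cAC : ∀ i i' k k', Continuous fun c => AC ρ g (x i c + y k c - (x i' c + y k' c)) := fun i i' k k' =>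
    (continuous_AC hρ hρg).comp (cF i i' k k')
  -- one term
  have hterm : ∀ i ∈ X, ∀ k ∈ Y, ∀ i' ∈ X, ∀ k' ∈ Y, ∫ c in p0..p1, AC ρ g (x i c + y k c - (x i' c + y k' c)) ≤
      if k' = k then 4 * ρ * ∫ c in p0..p1, (if |x i c + y k c - (x i' c + y k' c)| ≤ 2 * g then (1 : ℝ) else 0) else
        (1 / d k k') * (16 * ρ ^ 2 / κ0 * ((if |x i p0 + y k p0 - (x i' p0 + y k' p0)| ≤ 2 * g then 1 else 0) +
          (if |x i p1 + y k p1 - (x i' p1 + y k' p1)| ≤ 2 * g then 1 else 0)) + 16 * ρ ^ 2 * M0 *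
          ∫ c in p0..p1, (if |x i c + y k c - (x i' c + y k' c)| ≤ 2 * g then (1 : ℝ) else 0)) := by
    intro i hi k hk i' hi' k' hk'
    by_cases h1 : k' = k
    · rw [if_pos h1, ← intervalIntegral.integral_const_mul]
      refine intervalIntegral.integral_mono_on hp ((cAC i i' k k').intervalIntegrable _ _)
        ((ind_ii (cF i i' k k') g p0 p1).const_mul _) fun c _ => ?_
      split_ifs with h2
      · rw [mul_one]
        exact (abs_le.1 (abs_AC_le hρ hρg _)).2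
      · rw [AC_zero hρ hρg (not_le.1 h2).le, mul_zero]
    · rw [if_neg h1]
      obtain ⟨F1, F2, hF, hF1, hF2, hmain⟩ := hpair i hi i' hi' k hk k' hk' h1
      have hdp := hd k hk k' hk' h1
      have h2 := ibp (M := M0 / d k k') hρ hρg hp (fun c => x i c + y k c - (x i' c + y k' c)) F1 F2 hF hF1 hF2 (mul_pos hκ0 hdp)
        (fun c hc h3 => by
          obtain ⟨h4, h5⟩ := hmain c hc h3
          refine ⟨h4, ?_⟩
          rw [div_mul_eq_mul_div, le_div_iff₀ hdp]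
          exact h5)
      refine ((abs_le.1 h2).2).trans (le_of_eq ?_)
      have hne : d k k' ≠ 0 := hdp.ne'
      field_simp
  -- swap
  have h1 : ∫ c in p0..p1, VV ρ g X Y (fun i => x i c) (fun k => y k c) = ∑ p ∈ X ×ˢ Y, ∑ q ∈ X ×ˢ Y,
      ∫ c in p0..p1, AC ρ g (x p.1 c + y p.2 c - (x q.1 c + y q.2 c)) := by
    unfold VV
    rw [intervalIntegral.integral_finsetSum fun p _ => ?_]
    · refine sum_congr rfl fun p _ => ?_
      rw [intervalIntegral.integral_finsetSum fun q _ => (cAC _ _ _ _).intervalIntegrable _ _]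
    · exact (continuous_finsetSum _ fun q _ => cAC _ _ _ _).intervalIntegrable _ _
  rw [h1, sum_product]
  have hcount : ∀ i, ∀ k k', ∀ c ∈ Set.Icc p0 p1,
      ∑ i' ∈ X, (if |x i c + y k c - (x i' c + y k' c)| ≤ 2 * g then (1 : ℝ) else 0) ≤ C0 := by
    intro i k k' c hc
    rw [← sum_filter, sum_const, nsmul_eq_mul, mul_one]
    have h2 := hX c hc (x i c + y k c - y k' c)
    refine le_trans (le_of_eq ?_) h2
    congr 2
    refine filter_congr fun i' _ => ?_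
    rw [show x i c + y k c - (x i' c + y k' c) = x i c + y k c - y k' c - x i' c by ring]
  have hcountI : ∀ i, ∀ k k', ∑ i' ∈ X, ∫ c in p0..p1, (if |x i c + y k c - (x i' c + y k' c)| ≤ 2 * g then (1 : ℝ) else 0) ≤
      C0 * (p1 - p0) := by
    intro i k k'
    rw [← intervalIntegral.integral_finsetSum fun i' _ => ind_ii (cF i i' k k') g p0 p1]
    have h2 : ∫ _c in p0..p1, C0 = C0 * (p1 - p0) := by
      rw [intervalIntegral.integral_const, smul_eq_mul, mul_comm]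
    rw [← h2]
    refine intervalIntegral.integral_mono_on hp ?_ intervalIntegrable_const fun c hc => hcount i k k' c hc
    have h3 : (fun c => ∑ i' ∈ X, (if |x i c + y k c - (x i' c + y k' c)| ≤ 2 * g then (1 : ℝ) else 0)) =
        ∑ i' ∈ X, fun c => (if |x i c + y k c - (x i' c + y k' c)| ≤ 2 * g then (1 : ℝ) else 0) := by
      funext c
      simp only [Finset.sum_apply]
    rw [h3]
    exact IntervalIntegrable.sum _ fun i' _ => ind_ii (cF i i' k k') g p0 p1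
  have hp0 : p0 ∈ Set.Icc p0 p1 := ⟨le_refl _, hp⟩
  have hp1 : p1 ∈ Set.Icc p0 p1 := ⟨hp, le_refl _⟩
  have hpp : 0 ≤ p1 - p0 := by linarith
  have hinner : ∀ i ∈ X, ∀ k ∈ Y, ∑ q ∈ X ×ˢ Y,
      ∫ c in p0..p1, AC ρ g (x i c + y k c - (x q.1 c + y q.2 c)) ≤
      C0 * (4 * ρ * (p1 - p0) + 16 * ρ ^ 2 * (2 / κ0 + M0 * (p1 - p0)) * Lg) := by
    intro i hi k hk
    rw [sum_product_right]
    have h2 : ∀ k' ∈ Y, ∑ i' ∈ X, ∫ c in p0..p1, AC ρ g (x i c + y k c - (x i' c + y k' c)) ≤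
        if k' = k then 4 * ρ * (C0 * (p1 - p0)) else
          C0 * (16 * ρ ^ 2 * (2 / κ0 + M0 * (p1 - p0))) * (1 / d k k') := by
      intro k' hk'
      refine (sum_le_sum fun i' hi' => hterm i hi k hk i' hi' k' hk').trans ?_
      by_cases h3 : k' = k
      · simp only [if_pos h3]
        rw [← mul_sum]
        exact mul_le_mul_of_nonneg_left (hcountI i k k') (by positivity)
      · simp only [if_neg h3]
        have hdp := hd k hk k' hk' h3
        rw [← mul_sum, sum_add_distrib, ← mul_sum, sum_add_distrib, ← mul_sum, mul_comm _ (1 / d k k')]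
        refine mul_le_mul_of_nonneg_left ?_ (by positivity)
        have h5 := hcount i k k' p0 hp0
        have h6 := hcount i k k' p1 hp1
        have h7 := hcountI i k k'
        have h8 : 16 * ρ ^ 2 / κ0 * (∑ i' ∈ X, (if |x i p0 + y k p0 - (x i' p0 + y k' p0)| ≤ 2 * g then (1 : ℝ) else 0) +
            ∑ i' ∈ X, (if |x i p1 + y k p1 - (x i' p1 + y k' p1)| ≤ 2 * g then (1 : ℝ) else 0)) ≤
            16 * ρ ^ 2 / κ0 * (C0 + C0) := mul_le_mul_of_nonneg_left (add_le_add h5 h6) (by positivity)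
        have h9 := mul_le_mul_of_nonneg_left h7 (show 0 ≤ 16 * ρ ^ 2 * M0 by positivity)
        refine (add_le_add h8 h9).trans (le_of_eq ?_)
        field_simp
        ring
    refine (sum_le_sum h2).trans ?_
    rw [sum_ite]
    have h3 : ∑ k' ∈ Y.filter (fun k' => k' = k), 4 * ρ * (C0 * (p1 - p0)) ≤ 4 * ρ * (C0 * (p1 - p0)) := by
      rw [sum_const, nsmul_eq_mul]
      have h4 : (Y.filter (fun k' => k' = k)).card ≤ 1 := by
        rw [card_le_one]
        intro a ha b hb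
        rw [mem_filter] at ha hb
        rw [ha.2, hb.2]
      have h5 : ((Y.filter (fun k' => k' = k)).card : ℝ) ≤ 1 := by exact_mod_cast h4
      have h6 : 0 ≤ 4 * ρ * (C0 * (p1 - p0)) := by positivity
      exact mul_le_of_le_one_left h6 h5
    have h4 : ∑ k' ∈ Y.filter (fun k' => ¬ k' = k), C0 * (16 * ρ ^ 2 * (2 / κ0 + M0 * (p1 - p0))) * (1 / d k k') ≤
        C0 * (16 * ρ ^ 2 * (2 / κ0 + M0 * (p1 - p0))) * Lg := by
      rw [← mul_sum]
      exact mul_le_mul_of_nonneg_left (hsum k hk) (by positivity)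
    refine (add_le_add h3 h4).trans (le_of_eq ?_)
    ring
  refine (sum_le_sum fun i hi => sum_le_sum fun k hk => hinner i hi k hk).trans (le_of_eq ?_)
  simp only [sum_const, nsmul_eq_mul]
  ring

end Pool.Agent.D0H17.GE
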