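import Pool.Agent.D0H17.GE.FinalE

set_option autoImplicit false

/-! The number of the summands. -/

namespace Pool.Agent.D0H17.GE

open Finset MeasureTheory Filter
open scoped ENNReal

lemma dpow_le {b : ℝ} (hb : 1 < b) (t : ℕ) : (1 - 1 / b) ^ t ≤ Real.exp (-(t / b)) := by
  have h2 : 1 - 1 / b ≤ Real.exp (-(1 / b)) := by
    have := Real.add_one_le_exp (-(1 / b))
    linarith
  have h3 : 0 ≤ 1 - 1 / b := by
    have : 1 / b ≤ 1 := by
      rw [div_le_one (by linarith)]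
      exact hb.le
    linarith
  refine (pow_le_pow_left₀ h3 h2 _).trans (le_of_eq ?_)
  rw [← Real.exp_nat_mul]
  congr 1
  ring

lemma exp_m11 : 3 * Real.exp (-(11 / 10)) ≤ 0.9987 := by
  have h1 : Real.exp 1 > 2.7182818283 := Real.exp_one_gt_d9
  have h2 : Real.exp (-(11 / 10 : ℝ)) ^ 10 = 1 / Real.exp 1 ^ 11 := by
    rw [← Real.exp_nat_mul, ← Real.exp_nat_mul, one_div, ← Real.exp_neg]
    congr 1
    norm_num
  by_contra hcon
  have h3 : (0.9987 / 3 : ℝ) ≤ Real.exp (-(11 / 10 : ℝ)) := by linarith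
  have h4 : (0.9987 / 3 : ℝ) ^ 10 ≤ Real.exp (-(11 / 10 : ℝ)) ^ 10 := pow_le_pow_left₀ (by norm_num) h3 10
  rw [h2] at h4
  have h5 : (2.7182818283 : ℝ) ^ 11 ≤ Real.exp 1 ^ 11 := pow_le_pow_left₀ (by norm_num) h1.le 11
  have h6 : 1 / Real.exp 1 ^ 11 ≤ 1 / (2.7182818283 : ℝ) ^ 11 := one_div_le_one_div_of_le (by norm_num) h5
  have h7 : (0.9987 / 3 : ℝ) ^ 10 ≤ 1 / (2.7182818283 : ℝ) ^ 11 := h4.trans h6
  norm_num at h7

/-- three equal blocks, `b ≤ 10 t / 11` -/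
lemma three_le {b : ℝ} (hb : 1 < b) {t : ℕ} (ht : 11 * b ≤ 10 * t) : 2 * (1 - 1 / b) ^ t + (1 - 1 / b) ^ t ≤ 0.9987 := by
  have h1 := dpow_le hb t
  have h2 : Real.exp (-((t : ℝ) / b)) ≤ Real.exp (-(11 / 10)) := by
    refine Real.exp_le_exp.2 (neg_le_neg ?_)
    rw [div_le_div_iff₀ (by norm_num) (by linarith)]
    linarith
  have h3 := exp_m11
  linarith

/-- three equal blocks, `b = 3 (t + 1) / 4`, `t ≥ 2` -/
lemma four_le {t : ℕ} (ht : 2 ≤ t) : 2 * (1 - 1 / (3 * ((t : ℝ) + 1) / 4)) ^ t + (1 - 1 / (3 * ((t : ℝ) + 1) / 4)) ^ t ≤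
    0.9987 := by
  have ht0 : (2 : ℝ) ≤ t := by exact_mod_cast ht
  rcases le_or_gt 5 t with h | h
  · have ht5 : (5 : ℝ) ≤ t := by exact_mod_cast h
    refine three_le ?_ ?_
    · linarith
    · linarith
  · interval_cases t
    · norm_num
    · norm_num
    · norm_num

/-- the exceptional set -/
def EX : Set ℝ := {c : ℝ | 1 < c ∧ ∃ s : ℕ, (⌊4 * c⌋₊ ≤ s ∨ 3 * ⌈11 * c / 10⌉₊ ≤ s) ∧ ¬ CovE s c}

theorem EX_dim : dimH EX ≤ ENNReal.ofReal 0.9987 := by
  have hsub : EX ⊆ {c : ℝ | 1 < c ∧ c ≤ 3 / 2 ∧ ¬ CovE (2 * 1 + 2) c} ∪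
      ((⋃ t : {t : ℕ // 2 ≤ t}, {c : ℝ | 1 < c ∧ c ≤ 3 * ((t : ℕ) + 1) / 4 ∧ ¬ CovE (2 * (t : ℕ) + (t : ℕ)) c}) ∪
      ⋃ t : {t : ℕ // 2 ≤ t}, {c : ℝ | 1 < c ∧ c ≤ 10 * (t : ℕ) / 11 ∧ ¬ CovE (2 * (t : ℕ) + (t : ℕ)) c}) := by
    rintro c ⟨hc1, s, hs, hc⟩
    have hc0 : 0 ≤ c := by linarith
    rcases hs with hs | hs
    · have h1 : 4 * c < (⌊4 * c⌋₊ : ℝ) + 1 := Nat.lt_floor_add_one _
      have h2 : (⌊4 * c⌋₊ : ℝ) ≤ s := by exact_mod_cast hs
      rcases le_or_gt c (3 / 2) with h | h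
      · left
        refine ⟨hc1, h, fun h3 => hc (h3.mono ?_)⟩
        have h4 : (3 : ℝ) < s := by linarith
        have h5 : 3 < s := by exact_mod_cast h4
        omega
      · right; left
        obtain ⟨t, ht⟩ : ∃ t : ℕ, t = ⌊4 * c / 3⌋₊ := ⟨_, rfl⟩
        have h3 : (t : ℝ) ≤ 4 * c / 3 := by rw [ht]; exact Nat.floor_le (by positivity)
        have h4 : 4 * c / 3 < t + 1 := by rw [ht]; exact Nat.lt_floor_add_one _
        have h5 : 2 ≤ t := by
          rw [ht]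
          exact Nat.le_floor (by push_cast; linarith)
        rw [Set.mem_iUnion]
        refine ⟨⟨t, h5⟩, hc1, ?_, fun h6 => hc (h6.mono ?_)⟩
        · simp only
          linarith
        · simp only
          have h7 : (3 * t : ℝ) < s + 1 := by linarith
          have h8 : 3 * t < s + 1 := by exact_mod_cast h7
          omega
    · right; right
      obtain ⟨t, ht⟩ : ∃ t : ℕ, t = ⌈11 * c / 10⌉₊ := ⟨_, rfl⟩
      have h3 : 11 * c / 10 ≤ t := by rw [ht]; exact Nat.le_ceil _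
      have h5 : 2 ≤ t := by
        have h6 : (1 : ℝ) < t := by linarith
        exact_mod_cast h6
      rw [Set.mem_iUnion]
      refine ⟨⟨t, h5⟩, hc1, ?_, fun h6 => hc (h6.mono ?_)⟩
      · simp only
        linarith
      · simp only
        omega
  refine (dimH_mono hsub).trans ?_
  rw [dimH_union, dimH_union, dimH_iUnion, dimH_iUnion]
  refine max_le ?_ (max_le (iSup_le fun t => ?_) (iSup_le fun t => ?_))
  · refine (finE (3 / 2) 1 2 (by norm_num) le_rfl (by norm_num)).trans (ENNReal.ofReal_le_ofReal ?_)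
    norm_num
  · have ht2 : (2 : ℝ) ≤ ((t : ℕ) : ℝ) := by exact_mod_cast t.2
    have ht := t.2
    exact (finE (3 * ((t : ℕ) + 1) / 4) t t (by linarith) (by omega) (by omega)).trans
      (ENNReal.ofReal_le_ofReal (four_le ht))
  · have ht2 : (2 : ℝ) ≤ ((t : ℕ) : ℝ) := by exact_mod_cast t.2
    have ht := t.2
    have hb : (1 : ℝ) < 10 * ((t : ℕ) : ℝ) / 11 := by linarith
    exact (finE (10 * (t : ℕ) / 11) t t hb (by omega) (by omega)).trans
      (ENNReal.ofReal_le_ofReal (three_le hb (by linarith)))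

theorem EX_lt : dimH EX < 1 := by
  refine lt_of_le_of_lt EX_dim ?_
  rw [show (1 : ℝ≥0∞) = ENNReal.ofReal 1 by simp, ENNReal.ofReal_lt_ofReal_iff (by norm_num)]
  norm_num

end Pool.Agent.D0H17.GE
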