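import Pool.Agent.D0H17.GE.Scale
import Pool.Agent.D0H17.GE.Link

set_option autoImplicit false

/-! One scale: the second moment is large near a bad exponent, and small on average. -/

namespace Pool.Agent.D0H17.GE

open Finset MeasureTheory

lemma two_pow_sub {j : ℕ} (hj : 1 ≤ j) {β c : ℝ} (h2 : c ≤ β + 1 / j) :
    ((2 : ℝ) ^ j) ^ (c - β) ≤ 2 := by
  have hj0 : (0 : ℝ) < j := by exact_mod_cast hj
  have h3 : (1 : ℝ) ≤ 2 ^ j := one_le_pow₀ (by norm_num)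
  calc ((2 : ℝ) ^ j) ^ (c - β) ≤ ((2 : ℝ) ^ j) ^ (1 / (j : ℝ)) := Real.rpow_le_rpow_of_exponent_le h3 (by linarith)
    _ = 2 := by
        rw [← Real.rpow_natCast 2 j, ← Real.rpow_mul (by norm_num), mul_one_div_cancel hj0.ne', Real.rpow_one]

lemma pow_le_two {j : ℕ} (hj : 1 ≤ j) {β c x : ℝ} (h1 : β ≤ c) (h2 : c ≤ β + 1 / j) (hx : 1 ≤ x) (hx2 : x ≤ 2 ^ j) :
    x ^ c ≤ 2 * x ^ β := by
  have h3 : x ^ c = x ^ (c - β) * x ^ β := by
    rw [← Real.rpow_add (by linarith)]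
    congr 1
    ring
  have h4 : x ^ (c - β) ≤ 2 := (Real.rpow_le_rpow (by linarith) hx2 (by linarith)).trans (two_pow_sub hj h2)
  rw [h3]
  exact mul_le_mul_of_nonneg_right h4 (by positivity)

lemma SF.mono {Λ Λ' K c : ℝ} {j T T' : ℕ} {p : ℕ → ℝ} (h : SF Λ K c j T p) (hΛ : Λ' ≤ Λ) (hΛ0 : 0 < Λ) (hT : T' ≤ T) :
    SF Λ' K c j T' p where
  big := fun i hi => hΛ.trans (h.big i (by omega))
  top := fun i hi => h.top i (by omega)
  anti := fun i hi => h.anti i (by omega)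
  lo := fun i hi => h.lo i (by omega)
  hi := fun i hi => h.hi i (by omega)
  gap := fun i hi => by
    refine le_trans ?_ (h.gap i (by omega))
    have h1 : 0 < p (i + 1) := lt_of_lt_of_le hΛ0 (h.big (i + 1) (by omega))
    have h2 : 0 ≤ p (i + 1) ^ (c - 1) := by positivity
    exact mul_le_mul_of_nonneg_right (mul_le_mul_of_nonneg_right hΛ (Nat.cast_nonneg _)) h2
  lgap := fun i hi => hΛ.trans (h.lgap i (by omega))

lemma mem_YS {H t : ℕ} {p : ℕ → ℝ} {v : Fin t → ℕ} (hp : ∀ i : Fin t, 0 ≤ p i) (hv : v ∈ YS H t p) (i : Fin t) :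
    p i / 8 ≤ v i ∧ (v i : ℝ) ≤ p i / 4 := by
  unfold YS at hv
  rw [Fintype.mem_piFinset] at hv
  have h := hv i
  rw [mem_filter, mem_Icc, Nat.ceil_le, Nat.le_floor_iff (by have := hp i; positivity)] at h
  exact h.1

lemma YS_S_le {H t j : ℕ} {p : ℕ → ℝ} {v : Fin t → ℕ} {β c : ℝ} (hj : 1 ≤ j) (h1 : β ≤ c) (h2 : c ≤ β + 1 / j) (hc : 0 ≤ c)
    (hp : ∀ i : Fin t, 0 ≤ p i) (hp2 : ∀ i : Fin t, p i ≤ 2 ^ j) (hv : v ∈ YS H t p) :
    S c v ≤ t * (2 * ((2 : ℝ) ^ j) ^ β) := by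
  unfold S
  have h3 : ∀ i : Fin t, (v i : ℝ) ^ c ≤ 2 * ((2 : ℝ) ^ j) ^ β := by
    intro i
    have h4 := (mem_YS hp hv i).2
    have h5 : (v i : ℝ) ≤ 2 ^ j := by
      have h6 := hp i
      have h7 := hp2 i
      linarith
    refine (Real.rpow_le_rpow (Nat.cast_nonneg _) h5 hc).trans ?_
    exact pow_le_two hj h1 h2 (one_le_pow₀ (by norm_num)) (le_refl _)
  refine (sum_le_sum fun i _ => h3 i).trans (le_of_eq ?_)
  rw [sum_const, card_univ, Fintype.card_fin, nsmul_eq_mul]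

/-- the bad exponents at one scale -/
def BadE (R : ℕ) (K A1 A2 : ℝ) (t t' : ℕ) (β : ℝ) (j : ℕ) (ρ : ℝ) : Set ℝ :=
  {c | ∃ τ : ℝ, A1 * ((2 : ℝ) ^ j) ^ β ≤ τ ∧ τ ≤ A2 * ((2 : ℝ) ^ j) ^ β ∧
    ∀ u ∈ XS R (t + 1) (pp K β j), ∀ v ∈ YS (j ^ 2) (t + 1) (pp K β j), ∀ z ∈ YS (j ^ 2) (t' + 1) (pp K β j),
      3 * ρ ≤ |S c u + S c v + S c z - τ|}

/-- the second moment is large near a bad exponent -/
lemma VV_ge {b K Λ ρ g A1 A2 β c c' : ℝ} {R t t' j N : ℕ} (hj : 1 ≤ j) (hβ : 1 < β) (hβb : β ≤ b) (hR : 4 ≤ R)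
    (hK : (b + 1) * (R + 1) ≤ K) (hΛ : 2 * (2 * K) ^ (b + 1) ≤ Λ) (hΛ8 : 8 ≤ Λ)
    (hρ : 0 < ρ) (hρ4 : ρ ≤ 1 / 4) (hρg : ρ ≤ g) (hg : g = 4 * (b + 1) * ((R : ℝ) + 1) ^ b * pp K β j t ^ (β - 1))
    (hA1 : 2 ^ (b + 2) + 2 * (t + 1) + 2 * (t' + 1) + 1 ≤ A1) (hA2 : A2 + 1 ≤ R) (hA20 : 0 ≤ A2)
    (hc1 : β ≤ c) (hc2 : c ≤ β + 1 / j) (hc1' : β ≤ c') (hc2' : c' ≤ β + 1 / j) (hcc : |c' - c| ≤ 1 / N)
    (hN : ((2 * t + t' + 3 : ℕ) : ℝ) * ((R * (2 : ℝ) ^ j) ^ (β + 1 / j) * Real.log (R * (2 : ℝ) ^ j)) * (1 / N) ≤ ρ)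
    (hSF : SF Λ K c' j (max t t') (pp K β j))
    (hsep : ∀ z ∈ YS (j ^ 2) (t' + 1) (pp K β j), ∀ z' ∈ YS (j ^ 2) (t' + 1) (pp K β j), z ≠ z' → 1 ≤ |S c' z - S c' z'|)
    (hbad : c ∈ BadE R K A1 A2 t t' β j ρ) :
    (((YS (j ^ 2) (t' + 1) (pp K β j)).card : ℝ)) * (2 * ρ) * (ρ / g * ((YS (j ^ 2) (t + 1) (pp K β j)).card / 2)) ^ 2 ≤
      VV ρ g (XS R (t + 1) (pp K β j)) (YS (j ^ 2) (t + 1) (pp K β j)) (fun u => EE u c') (fun v => EE v c') := by
  set p := pp K β j with hp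
  have hj0 : (0 : ℝ) < j := by exact_mod_cast hj
  have hR0 : (4 : ℝ) ≤ R := by exact_mod_cast hR
  have hb1 : 1 < b := lt_of_lt_of_le hβ hβb
  have hj1 : 1 / (j : ℝ) ≤ 1 := by
    rw [div_le_one hj0]
    exact_mod_cast hj
  have hP1 : (1 : ℝ) ≤ 2 ^ j := one_le_pow₀ (by norm_num)
  have hpbig : ∀ i ≤ max t t', 8 ≤ p i := fun i hi => hΛ8.trans (hSF.big i hi)
  have hSFt : SF Λ K c' j t p := hSF.mono (le_refl _) (by linarith) (le_max_left _ _)
  have hu1 : ∀ u ∈ XS R (t + 1) p, ∀ i, 1 ≤ u i := by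
    intro u hu i
    have h1 := ((mem_XS (fun i => by have := hpbig i (by have := i.2; omega); linarith)).1 hu i).1
    have h2 := hpbig i (by have := i.2; omega)
    have h3 : (1 : ℝ) ≤ u i := by linarith
    exact_mod_cast h3
  have hv1 : ∀ s ≤ max t t', ∀ v ∈ YS (j ^ 2) (s + 1) p, ∀ i, 1 ≤ v i := by
    intro s hs v hv i
    have h1 := (mem_YS (fun i => by have := hpbig i (by have := i.2; omega); linarith) hv i).1
    have h2 := hpbig i (by have := i.2; omega)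
    have h3 : (1 : ℝ) ≤ v i := by linarith
    exact_mod_cast h3
  have hvB : ∀ s ≤ max t t', ∀ v ∈ YS (j ^ 2) (s + 1) p, ∀ i, (v i : ℝ) ≤ R * 2 ^ j := by
    intro s hs v hv i
    have h1 := (mem_YS (fun i => by have := hpbig i (by have := i.2; omega); linarith) hv i).2
    have h2 := hSF.top i (by have := i.2; omega)
    have h3 := hpbig i (by have := i.2; omega)
    nlinarith
  have huB : ∀ u ∈ XS R (t + 1) p, ∀ i, (u i : ℝ) ≤ R * 2 ^ j := by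
    intro u hu i
    have h1 := ((mem_XS (fun i => by have := hpbig i (by have := i.2; omega); linarith)).1 hu i).2
    have h2 := hSF.top i (by have := i.2; omega)
    exact h1.trans (mul_le_mul_of_nonneg_left h2 (by linarith))
  have hRP : (1 : ℝ) ≤ R * 2 ^ j := by nlinarith
  have hcm : 0 ≤ β + 1 / (j : ℝ) := by positivity
  obtain ⟨τ0, hτ1, hτ2, hmiss⟩ := hbad
  refine bad_VV (x := fun u => EE u c') (y := fun v => EE v c') (z := fun z : Fin (t' + 1) → ℕ => EE z c') hρ hρg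
    (XS R (t + 1) p) (YS (j ^ 2) (t + 1) p) (YS (j ^ 2) (t' + 1) p) τ0 ?_ ?_ ?_
  · intro u hu v hv z hz
    show 2 * ρ ≤ |EE u c' + EE v c' + EE z c' - τ0|
    rw [EE_eq (hu1 u hu), EE_eq (hv1 t (le_max_left _ _) v hv), EE_eq (hv1 t' (le_max_right _ _) z hz)]
    have h1 := hmiss u hu v hv z hz
    have h2 := stable (hu1 u hu) (huB u hu) hc2 hc2' hRP hcm
    have h3 := stable (hv1 t (le_max_left _ _) v hv) (hvB t (le_max_left _ _) v hv) hc2 hc2' hRP hcm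
    have h4 := stable (hv1 t' (le_max_right _ _) z hz) (hvB t' (le_max_right _ _) z hz) hc2 hc2' hRP hcm
    set Q := (R * (2 : ℝ) ^ j) ^ (β + 1 / j) * Real.log (R * (2 : ℝ) ^ j) with hQ
    have hQ0 : 0 ≤ Q := mul_nonneg (by positivity) (Real.log_nonneg hRP)
    have h5 : ((t + 1 : ℕ) : ℝ) * Q * |c' - c| + ((t + 1 : ℕ) : ℝ) * Q * |c' - c| + ((t' + 1 : ℕ) : ℝ) * Q * |c' - c| ≤ ρ := by
      have h6 : ((t + 1 : ℕ) : ℝ) * Q * |c' - c| + ((t + 1 : ℕ) : ℝ) * Q * |c' - c| + ((t' + 1 : ℕ) : ℝ) * Q * |c' - c| =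
          ((2 * t + t' + 3 : ℕ) : ℝ) * Q * |c' - c| := by
        push_cast
        ring
      rw [h6]
      exact (mul_le_mul_of_nonneg_left hcc (by positivity)).trans hN
    have h6 : S c u + S c v + S c z - τ0 = (S c' u + S c' v + S c' z - τ0) - (S c' u - S c u) - (S c' v - S c v) -
        (S c' z - S c z) := by ring
    rw [h6] at h1
    rw [abs_le] at h2 h3 h4
    by_contra hlt
    rw [not_le, abs_lt] at hlt
    have h7 : |(S c' u + S c' v + S c' z - τ0) - (S c' u - S c u) - (S c' v - S c v) - (S c' z - S c z)| < 3 * ρ := by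
      rw [abs_lt]
      constructor <;> linarith [h2.1, h2.2, h3.1, h3.2, h4.1, h4.2, hlt.1, hlt.2]
    linarith
  · intro z hz z' hz' hne
    show 2 * ρ ≤ |EE z c' - EE z' c'|
    rw [EE_eq (hv1 t' (le_max_right _ _) z hz), EE_eq (hv1 t' (le_max_right _ _) z' hz')]
    have := hsep z hz z' hz' hne
    linarith
  · intro z hz v hv τ hτ
    show ∃ i ∈ XS R (t + 1) p, |τ - EE v c' - EE i c'| ≤ g / 2
    have hτ' : |τ - (τ0 - EE z c')| < ρ := hτ
    rw [EE_eq (hv1 t' (le_max_right _ _) z hz)] at hτ'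
    rw [EE_eq (hv1 t (le_max_left _ _) v hv)]
    have hp0 : p 0 = 2 ^ j := rfl
    have hc0 : 1 < c' := lt_of_lt_of_le hβ hc1'
    have hz1 := YS_S_le (β := β) hj hc1' hc2' (by linarith) (fun i => by have := hpbig i (by have := i.2; omega); linarith)
      (fun i => hSF.top i (by have := i.2; omega)) hz
    have hv2 := YS_S_le (β := β) hj hc1' hc2' (by linarith) (fun i => by have := hpbig i (by have := i.2; omega); linarith)
      (fun i => hSF.top i (by have := i.2; omega)) hv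
    have hz0 := S_nonneg c' z
    have hv0 := S_nonneg c' v
    have hPβ : 1 ≤ ((2 : ℝ) ^ j) ^ β := Real.one_le_rpow hP1 (by linarith)
    have hPc := pow_le_two hj hc1' hc2' hP1 (le_refl _)
    rw [abs_lt] at hτ'
    obtain ⟨u, hu, huw⟩ := cover b K Λ c' R t j p hc0 (by linarith) hR hK hΛ hSFt (τ - S c' v) (by
      rw [hp0, Real.mul_rpow (by norm_num) (by linarith)]
      have h1 : (2 : ℝ) ^ c' * ((2 : ℝ) ^ j) ^ c' ≤ 2 ^ (b + 2) * ((2 : ℝ) ^ j) ^ β := by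
        have h2 : (2 : ℝ) ^ c' ≤ 2 ^ (b + 1) := Real.rpow_le_rpow_of_exponent_le (by norm_num) (by linarith)
        have h3 : (2 : ℝ) ^ (b + 2) = 2 ^ (b + 1) * 2 := by
          rw [show b + 2 = b + 1 + 1 by ring, Real.rpow_add (by norm_num), Real.rpow_one]
        rw [h3]
        calc (2 : ℝ) ^ c' * ((2 : ℝ) ^ j) ^ c' ≤ 2 ^ (b + 1) * (2 * ((2 : ℝ) ^ j) ^ β) :=
              mul_le_mul h2 hPc (by positivity) (by positivity)
          _ = _ := by ring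
      have h2 := mul_le_mul_of_nonneg_right hA1 (by linarith : (0 : ℝ) ≤ ((2 : ℝ) ^ j) ^ β)
      push_cast at hz1 hv2
      nlinarith [hτ'.1]) (by
      rw [hp0, Real.mul_rpow (by positivity) (by linarith)]
      have h1 : (R : ℝ) * ((2 : ℝ) ^ j) ^ β ≤ (R : ℝ) ^ c' * ((2 : ℝ) ^ j) ^ c' := by
        refine mul_le_mul ?_ (Real.rpow_le_rpow_of_exponent_le hP1 hc1') (by positivity) (by positivity)
        calc (R : ℝ) = (R : ℝ) ^ (1 : ℝ) := (Real.rpow_one _).symm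
          _ ≤ _ := Real.rpow_le_rpow_of_exponent_le (by linarith) hc0.le
      have h2 := mul_le_mul_of_nonneg_right hA2 (by linarith : (0 : ℝ) ≤ ((2 : ℝ) ^ j) ^ β)
      nlinarith [hτ'.2])
    refine ⟨u, hu, ?_⟩
    rw [EE_eq (hu1 u hu)]
    refine huw.trans ?_
    rw [hg]
    have hpt : 1 ≤ p t := by
      have := hpbig t (le_max_left _ _)
      linarith
    have hpt2 : p t ≤ 2 ^ j := hSF.top t (le_max_left _ _)
    rw [Real.mul_rpow (by positivity) (by linarith)]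
    have h1 : p t ^ (c' - 1) ≤ 2 * p t ^ (β - 1) :=
      pow_le_two (β := β - 1) (c := c' - 1) hj (by linarith) (by linarith) hpt hpt2
    have h2 : ((R : ℝ) + 1) ^ (c' - 1) ≤ ((R : ℝ) + 1) ^ b := Real.rpow_le_rpow_of_exponent_le (by linarith) (by linarith)
    calc c' * (((R : ℝ) + 1) ^ (c' - 1) * p t ^ (c' - 1)) ≤ (b + 1) * (((R : ℝ) + 1) ^ b * (2 * p t ^ (β - 1))) := by
          refine mul_le_mul (by linarith) (mul_le_mul h2 h1 (by positivity) (by positivity)) (by positivity) (by linarith)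
      _ = _ := by ring

end Pool.Agent.D0H17.GE
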