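import Pool.Agent.D0H17.GE.Moment
import Pool.Agent.D0H17.GE.Defs
import Pool.Agent.D0H17.MR.Scale

set_option autoImplicit false

/-! The bad exponents at one scale. -/

namespace Pool.Agent.D0H17.GE

open Finset MeasureTheory

variable {ι κ ζ : Type}

/-- the lower bound of the second moment at a bad parameter -/
lemma bad_VV {ρ g : ℝ} (hρ : 0 < ρ) (hρg : ρ ≤ g) (X : Finset ι) (Y : Finset κ) (Z : Finset ζ) (x : ι → ℝ) (y : κ → ℝ)
    (z : ζ → ℝ) (τ0 : ℝ) (hmiss : ∀ i ∈ X, ∀ k ∈ Y, ∀ m ∈ Z, 2 * ρ ≤ |x i + y k + z m - τ0|)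
    (hsep : ∀ m ∈ Z, ∀ m' ∈ Z, m ≠ m' → 2 * ρ ≤ |z m - z m'|)
    (hcov : ∀ m ∈ Z, ∀ k ∈ Y, ∀ τ : ℝ, |τ - (τ0 - z m)| < ρ → ∃ i ∈ X, |τ - y k - x i| ≤ g / 2) :
    (Z.card : ℝ) * (2 * ρ) * (ρ / g * (Y.card / 2)) ^ 2 ≤ VV ρ g X Y x y := by
  classical
  have hg : 0 < g := lt_of_lt_of_le hρ hρg
  -- pointwise
  have hpt : ∀ τ : ℝ, ∑ m ∈ Z, (ρ / g * (Y.card / 2)) ^ 2 * MR.box ρ (τ - (τ0 - z m)) ≤ RR ρ g X Y x y τ ^ 2 := by
    intro τ
    by_cases hex : ∃ m ∈ Z, |τ - (τ0 - z m)| < ρ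
    · obtain ⟨m, hm, hmτ⟩ := hex
      have hone : ∑ m' ∈ Z, (ρ / g * (Y.card / 2)) ^ 2 * MR.box ρ (τ - (τ0 - z m')) = (ρ / g * (Y.card / 2)) ^ 2 := by
        rw [Finset.sum_eq_single_of_mem m hm, MR.box_of_lt hmτ, mul_one]
        intro m' hm' hne
        rw [MR.box_of_ge, mul_zero]
        by_contra hlt
        rw [not_le] at hlt
        have h1 : |z m' - z m| < 2 * ρ := by
          have h2 : z m' - z m = (τ - (τ0 - z m')) - (τ - (τ0 - z m)) := by ring
          rw [h2]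
          calc _ ≤ |τ - (τ0 - z m')| + |τ - (τ0 - z m)| := abs_sub _ _
            _ < 2 * ρ := by linarith
        linarith [hsep m' hm' m hm hne]
      rw [hone]
      have hmτ' := abs_lt.1 hmτ
      have hfine : ∀ p ∈ X ×ˢ Y, psi ρ g (x p.1 + y p.2 - τ) = -(ρ / g * phi ((x p.1 + y p.2 - τ) / g)) := by
        intro p hp
        rw [mem_product] at hp
        have h1 := hmiss p.1 hp.1 p.2 hp.2 m hm
        have h2 : ρ ≤ |x p.1 + y p.2 - τ| := by
          by_contra hlt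
          rw [not_le] at hlt
          have h3 : x p.1 + y p.2 + z m - τ0 = (x p.1 + y p.2 - τ) + (τ - (τ0 - z m)) := by ring
          rw [h3] at h1
          have h4 := abs_add_le (x p.1 + y p.2 - τ) (τ - (τ0 - z m))
          linarith
        unfold psi
        rw [phi_div_zero hρ h2]
        ring
      have hRR : RR ρ g X Y x y τ = -(ρ / g * ∑ p ∈ X ×ˢ Y, phi ((x p.1 + y p.2 - τ) / g)) := by
        unfold RR
        rw [sum_congr rfl hfine, sum_neg_distrib, mul_sum]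
      have hcoarse : (Y.card : ℝ) / 2 ≤ ∑ p ∈ X ×ˢ Y, phi ((x p.1 + y p.2 - τ) / g) := by
        rw [sum_product_right]
        have h1 : ∀ k ∈ Y, (1 / 2 : ℝ) ≤ ∑ i ∈ X, phi ((x i + y k - τ) / g) := by
          intro k hk
          obtain ⟨i, hi, hiτ⟩ := hcov m hm k hk τ hmτ
          have h2 : 1 / 2 ≤ phi ((x i + y k - τ) / g) := by
            apply phi_half
            rw [abs_div, abs_of_pos hg, div_le_iff₀ hg]
            rw [abs_sub_comm] at hiτ
            have h3 : x i + y k - τ = x i - (τ - y k) := by ring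
            rw [h3]
            linarith
          exact h2.trans (Finset.single_le_sum (f := fun i => phi ((x i + y k - τ) / g)) (fun i _ => phi_nonneg _) hi)
        calc (Y.card : ℝ) / 2 = ∑ k ∈ Y, (1 / 2 : ℝ) := by rw [sum_const, nsmul_eq_mul]; ring
          _ ≤ _ := sum_le_sum h1
      rw [hRR, neg_sq]
      refine pow_le_pow_left₀ (by positivity) ?_ 2
      exact mul_le_mul_of_nonneg_left hcoarse (by positivity)
    · have hzero : ∑ m ∈ Z, (ρ / g * (Y.card / 2)) ^ 2 * MR.box ρ (τ - (τ0 - z m)) = 0 := by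
        refine sum_eq_zero fun m hm => ?_
        rw [MR.box_of_ge, mul_zero]
        by_contra h1
        exact hex ⟨m, hm, not_le.1 h1⟩
      rw [hzero]
      exact sq_nonneg _
  have hint : ∀ m : ζ, Integrable fun τ : ℝ => (ρ / g * (Y.card / 2)) ^ 2 * MR.box ρ (τ - (τ0 - z m)) := by
    intro m
    exact ((MR.integrable_box ρ).comp_sub_right _).const_mul _
  rw [← integral_RR_sq hρ hρg]
  calc (Z.card : ℝ) * (2 * ρ) * (ρ / g * (Y.card / 2)) ^ 2
      = ∫ τ, ∑ m ∈ Z, (ρ / g * (Y.card / 2)) ^ 2 * MR.box ρ (τ - (τ0 - z m)) := by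
        rw [integral_finsetSum _ fun m _ => hint m]
        have h1 : ∀ m ∈ Z, ∫ τ, (ρ / g * (Y.card / 2)) ^ 2 * MR.box ρ (τ - (τ0 - z m)) =
            (ρ / g * (Y.card / 2)) ^ 2 * (2 * ρ) := by
          intro m _
          rw [integral_const_mul, integral_sub_right_eq_self (MR.box ρ), MR.integral_box hρ.le]
        rw [sum_congr rfl h1, sum_const, nsmul_eq_mul]
        ring
    _ ≤ _ := integral_mono (integrable_finsetSum _ fun m _ => hint m) (integrable_RR_sq hρ hρg X Y x y) hpt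

/-- the number of cells in a set -/
lemma cells_le (N : ℕ) (hN : 0 < N) (F : Finset ℕ) (T : Set ℝ) (hF : ∀ z ∈ F, MR.cell N z ⊆ T) :
    ENNReal.ofReal ((F.card : ℝ) / N) ≤ volume T := by
  classical
  have hN0 : (0 : ℝ) < N := by exact_mod_cast hN
  have hsub : (⋃ z ∈ F, MR.cell N z) ⊆ T := by
    intro c' hc'
    simp only [Set.mem_iUnion] at hc'
    obtain ⟨z, hz, hzc⟩ := hc'
    exact hF z hz hzc
  refine le_trans ?_ (measure_mono hsub)
  rw [measure_biUnion_finset]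
  · have h1 : ∀ z ∈ F, volume (MR.cell N z) = ENNReal.ofReal (1 / N) := by
      intro z _
      unfold MR.cell
      rw [Real.volume_Ico]
      congr 1
      ring
    rw [sum_congr rfl h1, sum_const, nsmul_eq_mul, div_eq_mul_one_div, ENNReal.ofReal_mul (Nat.cast_nonneg _),
      ENNReal.ofReal_natCast]
  · intro z _ w _ hzw
    rw [Function.onFun, Set.disjoint_left]
    intro x hx hy
    apply hzw
    unfold MR.cell at hx hy
    simp only [Set.mem_Ico, div_le_iff₀ hN0, lt_div_iff₀ hN0] at hx hy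
    have h3 : (z : ℝ) < w + 1 := by linarith [hx.1, hy.2]
    have h4 : (w : ℝ) < z + 1 := by linarith [hy.1, hx.2]
    have h5 : z < w + 1 := by exact_mod_cast h3
    have h6 : w < z + 1 := by exact_mod_cast h4
    omega
  · intro z _
    exact measurableSet_Ico

/-- Markov's inequality -/
lemma markov {f : ℝ → ℝ} (hf : Continuous f) (hf0 : ∀ c, 0 ≤ f c) {p0 p1 : ℝ} (hp : p0 ≤ p1) {W : ℝ} (hW : 0 < W) :
    volume ({c | W ≤ f c} ∩ Set.Icc p0 p1) ≤ ENNReal.ofReal ((∫ c in p0..p1, f c) / W) := by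
  have hi : IntegrableOn f (Set.Icc p0 p1) := hf.integrableOn_Icc
  have h1 := mul_meas_ge_le_integral_of_nonneg (μ := volume.restrict (Set.Icc p0 p1)) (f := f)
    (Filter.Eventually.of_forall hf0) hi W
  have h2 : (volume.restrict (Set.Icc p0 p1)) {c | W ≤ f c} = volume ({c | W ≤ f c} ∩ Set.Icc p0 p1) :=
    Measure.restrict_apply' measurableSet_Icc
  have h3 : volume ({c | W ≤ f c} ∩ Set.Icc p0 p1) ≠ ⊤ := by
    refine ne_top_of_le_ne_top ?_ (measure_mono Set.inter_subset_right)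
    rw [Real.volume_Icc]
    exact ENNReal.ofReal_ne_top
  rw [← ENNReal.ofReal_toReal h3]
  refine ENNReal.ofReal_le_ofReal ?_
  rw [le_div_iff₀ hW, mul_comm]
  rw [Measure.real, h2] at h1
  refine h1.trans (le_of_eq ?_)
  rw [intervalIntegral.integral_of_le hp, integral_Icc_eq_integral_Ioc]

/-- the sum of powers, with the exponential function -/
noncomputable def EE {t : ℕ} (u : Fin t → ℕ) (c : ℝ) : ℝ := ∑ i, Real.exp (Real.log (u i) * c)

lemma EE_eq {t : ℕ} {u : Fin t → ℕ} (hu : ∀ i, 1 ≤ u i) (c : ℝ) : EE u c = S c u := by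
  unfold EE S
  refine sum_congr rfl fun i _ => ?_
  have h : (0 : ℝ) < u i := by exact_mod_cast hu i
  rw [Real.rpow_def_of_pos h]

lemma continuous_EE {t : ℕ} (u : Fin t → ℕ) : Continuous (EE u) := by
  unfold EE
  exact continuous_finsetSum _ fun i _ => Real.continuous_exp.comp (continuous_const.mul continuous_id)

/-- derivatives -/
noncomputable def EE1 {t : ℕ} (u : Fin t → ℕ) (c : ℝ) : ℝ := ∑ i, Real.exp (Real.log (u i) * c) * Real.log (u i)

noncomputable def EE2 {t : ℕ} (u : Fin t → ℕ) (c : ℝ) : ℝ := ∑ i, Real.exp (Real.log (u i) * c) * Real.log (u i) ^ 2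

lemma EE1_eq {t : ℕ} {u : Fin t → ℕ} (hu : ∀ i, 1 ≤ u i) (c : ℝ) : EE1 u c = S1 c u := by
  unfold EE1 S1
  refine sum_congr rfl fun i _ => ?_
  have h : (0 : ℝ) < u i := by exact_mod_cast hu i
  rw [Real.rpow_def_of_pos h]

lemma EE2_eq {t : ℕ} {u : Fin t → ℕ} (hu : ∀ i, 1 ≤ u i) (c : ℝ) : EE2 u c = S2 c u := by
  unfold EE2 S2
  refine sum_congr rfl fun i _ => ?_
  have h : (0 : ℝ) < u i := by exact_mod_cast hu i
  rw [Real.rpow_def_of_pos h]

lemma continuous_EE2 {t : ℕ} (u : Fin t → ℕ) : Continuous (EE2 u) := by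
  unfold EE2
  exact continuous_finsetSum _ fun i _ => (Real.continuous_exp.comp (continuous_const.mul continuous_id)).mul continuous_const

lemma hasDerivAt_EE {t : ℕ} (u : Fin t → ℕ) (c : ℝ) : HasDerivAt (EE u) (EE1 u c) c := by
  unfold EE EE1
  refine HasDerivAt.fun_sum fun i _ => ?_
  have h1 : HasDerivAt (fun c : ℝ => Real.log (u i) * c) (Real.log (u i)) c := by
    simpa using (hasDerivAt_id c).const_mul (Real.log (u i))
  exact h1.exp

lemma hasDerivAt_EE1 {t : ℕ} (u : Fin t → ℕ) (c : ℝ) : HasDerivAt (EE1 u) (EE2 u c) c := by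
  unfold EE1 EE2
  refine HasDerivAt.fun_sum fun i _ => ?_
  have h1 : HasDerivAt (fun c : ℝ => Real.log (u i) * c) (Real.log (u i)) c := by
    simpa using (hasDerivAt_id c).const_mul (Real.log (u i))
  refine (h1.exp.mul_const (Real.log (u i))).congr_deriv ?_
  ring

/-- stability -/
lemma stable {t : ℕ} {u : Fin t → ℕ} (hu : ∀ i, 1 ≤ u i) {B cm : ℝ} (hB : ∀ i, (u i : ℝ) ≤ B) {c c' : ℝ} (hc : c ≤ cm)
    (hc' : c' ≤ cm) (hB1 : 1 ≤ B) (hcm : 0 ≤ cm) : |S c' u - S c u| ≤ t * (B ^ cm * Real.log B) * |c' - c| := by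
  have h1 : ∀ i, |(u i : ℝ) ^ c' - (u i : ℝ) ^ c| ≤ B ^ cm * Real.log B * |c' - c| := by
    intro i
    have hui : (1 : ℝ) ≤ u i := by exact_mod_cast hu i
    have hui0 : (0 : ℝ) < u i := by linarith
    have hlog : 0 ≤ Real.log (u i) := Real.log_nonneg hui
    have hd : ∀ x ∈ Set.Iic cm, HasDerivWithinAt (fun x : ℝ => (u i : ℝ) ^ x) ((u i : ℝ) ^ x * Real.log (u i)) (Set.Iic cm) x := by
      intro x _
      exact (Real.hasStrictDerivAt_const_rpow hui0 x).hasDerivAt.hasDerivWithinAt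
    have hbd : ∀ x ∈ Set.Iic cm, ‖(u i : ℝ) ^ x * Real.log (u i)‖ ≤ B ^ cm * Real.log B := by
      intro x hx
      rw [Real.norm_of_nonneg (by positivity)]
      refine mul_le_mul ?_ (Real.log_le_log hui0 (hB i)) hlog (by positivity)
      calc (u i : ℝ) ^ x ≤ (u i : ℝ) ^ cm := Real.rpow_le_rpow_of_exponent_le hui hx
        _ ≤ B ^ cm := Real.rpow_le_rpow (by linarith) (hB i) hcm
    have h2 := (convex_Iic cm).norm_image_sub_le_of_norm_hasDerivWithin_le hd hbd (Set.mem_Iic.2 hc) (Set.mem_Iic.2 hc')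
    rw [Real.norm_eq_abs, Real.norm_eq_abs] at h2
    exact h2
  unfold S
  rw [← sum_sub_distrib]
  refine (abs_sum_le_sum_abs _ _).trans ((sum_le_sum fun i _ => h1 i).trans (le_of_eq ?_))
  rw [sum_const, card_univ, Fintype.card_fin, nsmul_eq_mul]
  ring

/-- the harmonic sum over a separated family -/
lemma harmonic_sep [DecidableEq κ] (Y : Finset κ) (s : κ → ℝ) (N : ℕ) (hs0 : ∀ k ∈ Y, 0 ≤ s k) (hsN : ∀ k ∈ Y, s k ≤ N)
    (hsep : ∀ k ∈ Y, ∀ k' ∈ Y, k ≠ k' → 1 ≤ |s k - s k'|) (k : κ) (hk : k ∈ Y) :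
    ∑ k' ∈ Y.filter (fun k' => k' ≠ k), 1 / |s k - s k'| ≤ 4 * (1 + Real.log N) := by
  have hinj : ∀ k ∈ Y, ∀ k' ∈ Y, ⌊s k⌋₊ = ⌊s k'⌋₊ → k = k' := by
    intro k hk k' hk' h
    by_contra hne
    have h1 := hsep k hk k' hk' hne
    have h2 := Nat.floor_le (hs0 k hk)
    have h3 := Nat.lt_floor_add_one (s k)
    have h4 := Nat.floor_le (hs0 k' hk')
    have h5 := Nat.lt_floor_add_one (s k')
    rw [h] at h2 h3
    have h6 : |s k - s k'| < 1 := by
      rw [abs_lt]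
      constructor <;> linarith
    linarith
  have hterm : ∀ k' ∈ Y.filter (fun k' => k' ≠ k), 1 / |s k - s k'| ≤ 2 * (1 / |((⌊s k⌋₊ : ℕ) : ℝ) - (⌊s k'⌋₊ : ℕ)|) := by
    intro k' hk'
    rw [mem_filter] at hk'
    have h1 := hsep k hk k' hk'.1 (Ne.symm hk'.2)
    have hne : ⌊s k⌋₊ ≠ ⌊s k'⌋₊ := fun h => hk'.2 (hinj k hk k' hk'.1 h).symm
    have h2 := Nat.floor_le (hs0 k hk)
    have h3 := Nat.lt_floor_add_one (s k)
    have h4 := Nat.floor_le (hs0 k' hk'.1)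
    have h5 := Nat.lt_floor_add_one (s k')
    have h6 : |((⌊s k⌋₊ : ℕ) : ℝ) - (⌊s k'⌋₊ : ℕ)| ≤ 2 * |s k - s k'| := by
      have h7 : |((⌊s k⌋₊ : ℕ) : ℝ) - (⌊s k'⌋₊ : ℕ)| ≤ |s k - s k'| + 1 := by
        have h8 := le_abs_self (s k - s k')
        have h9 := neg_abs_le (s k - s k')
        rw [abs_le]
        constructor <;> linarith
      linarith
    have h7 : 0 < |((⌊s k⌋₊ : ℕ) : ℝ) - (⌊s k'⌋₊ : ℕ)| := by
      rw [abs_pos, sub_ne_zero]
      exact_mod_cast hne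
    rw [mul_one_div, div_le_div_iff₀ (by linarith) h7]
    linarith
  refine (sum_le_sum hterm).trans ?_
  rw [← mul_sum]
  have h1 : ∑ k' ∈ Y.filter (fun k' => k' ≠ k), 1 / |((⌊s k⌋₊ : ℕ) : ℝ) - (⌊s k'⌋₊ : ℕ)| =
      ∑ n ∈ (Y.filter (fun k' => k' ≠ k)).image (fun k' => ⌊s k'⌋₊), 1 / |((⌊s k⌋₊ : ℕ) : ℝ) - n| := by
    rw [sum_image]
    intro a ha b hb hab
    rw [mem_coe, mem_filter] at ha hb
    exact hinj a ha.1 b hb.1 hab
  rw [h1]
  have h2 : (Y.filter (fun k' => k' ≠ k)).image (fun k' => ⌊s k'⌋₊) ⊆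
      (Y.image (fun k' => ⌊s k'⌋₊)).filter (fun n => n ≠ ⌊s k⌋₊) := by
    intro n hn
    rw [mem_image] at hn
    obtain ⟨k', hk', rfl⟩ := hn
    rw [mem_filter] at hk'
    rw [mem_filter, mem_image]
    exact ⟨⟨k', hk'.1, rfl⟩, fun h => hk'.2 (hinj k' hk'.1 k hk h)⟩
  have h3 := sum_le_sum_of_subset_of_nonneg h2 (f := fun n : ℕ => 1 / |((⌊s k⌋₊ : ℕ) : ℝ) - (n : ℝ)|) fun _ _ _ => by positivity
  have h4 := MR.harmonic_bound N (Y.image (fun k' => ⌊s k'⌋₊)) (by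
    intro n hn
    rw [mem_image] at hn
    obtain ⟨k', hk', rfl⟩ := hn
    exact Nat.floor_le_of_le (hsN k' hk')) ⌊s k⌋₊ (Nat.floor_le_of_le (hsN k hk))
  linarith

end Pool.Agent.D0H17.GE
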