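import Pool.Agent.D0H17.GE.Two

set_option autoImplicit false

/-! The number of the cells with a bad exponent at one scale. -/

namespace Pool.Agent.D0H17.GE

open Finset MeasureTheory

lemma alg {x y z q q' T g G1 C1 Cx κy κz ρ J H1 H2 : ℝ} (hx0 : 0 ≤ x) (hy0 : 0 < y) (hz0 : 0 < z) (hq : 0 < q)
    (hq' : 0 < q') (hT : 0 < T) (hG1 : 0 < G1) (hC1 : 0 < C1) (hCx : 0 < Cx) (hκy : 0 < κy) (hκz : 0 < κz) (hρ : 0 < ρ)
    (hJ : 0 < J) (hH1 : 0 < H1) (hH2 : 0 < H2) (hx : x * q ≤ Cx * T) (hy : κy * T ≤ y * q * H1)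
    (hz : κz * T ≤ z * q' * H2) (hg : g = G1 * q) :
    x * y * (C1 * J) / (z * (2 * ρ) * (ρ / g * (y / 2)) ^ 2) ≤
      2 * C1 * G1 ^ 2 * Cx / (κy * κz * ρ ^ 3) * J * (H1 * H2) * (q ^ 2 * q' / T) := by
  have hg0 : 0 < g := by rw [hg]; positivity
  have e1 : x * y * (C1 * J) / (z * (2 * ρ) * (ρ / g * (y / 2)) ^ 2) = 2 * C1 * J / ρ ^ 3 * (x * g ^ 2 / (z * y)) := by
    field_simp
  have e2 : 2 * C1 * G1 ^ 2 * Cx / (κy * κz * ρ ^ 3) * J * (H1 * H2) * (q ^ 2 * q' / T) =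
      2 * C1 * J / ρ ^ 3 * (G1 ^ 2 * Cx * (H1 * H2) * (q ^ 2 * q') / (κy * κz * T)) := by
    field_simp
  rw [e1, e2]
  refine mul_le_mul_of_nonneg_left ?_ (by positivity)
  rw [div_le_div_iff₀ (by positivity) (by positivity)]
  calc x * g ^ 2 * (κy * κz * T) = G1 ^ 2 * (x * q) * q * (κy * κz * T) := by rw [hg]; ring
    _ ≤ G1 ^ 2 * (Cx * T) * q * (κy * κz * T) := by
        refine mul_le_mul_of_nonneg_right (mul_le_mul_of_nonneg_right (mul_le_mul_of_nonneg_left hx ?_) hq.le) ?_ <;>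
          positivity
    _ = G1 ^ 2 * Cx * q * ((κy * T) * (κz * T)) := by ring
    _ ≤ G1 ^ 2 * Cx * q * ((y * q * H1) * (z * q' * H2)) := by
        refine mul_le_mul_of_nonneg_left (mul_le_mul hy hz (by positivity) (by positivity)) (by positivity)
    _ = _ := by ring

lemma q_le {K β b : ℝ} (hK : 1 ≤ K) (hβ : 1 < β) (hβb : β ≤ b) (j t : ℕ) :
    pp K β j t ^ (β - 1) ≤ (K ^ t) ^ b * ((2 : ℝ) ^ j) ^ (β * (1 - 1 / β) ^ (t + 1)) := by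
  have h1 := (pp_le K β hK hβ j t).1
  have h2 := (pp_le K β hK hβ j t).2
  have hP : (0 : ℝ) < 2 ^ j := by positivity
  have hp0 : 0 < pp K β j t := lt_of_lt_of_le (by positivity) h2
  have hKt : 1 ≤ K ^ t := one_le_pow₀ hK
  calc pp K β j t ^ (β - 1) ≤ (K ^ t * ((2 : ℝ) ^ j) ^ ((1 - 1 / β) ^ t)) ^ (β - 1) :=
        Real.rpow_le_rpow hp0.le h1 (by linarith)
    _ = (K ^ t) ^ (β - 1) * (((2 : ℝ) ^ j) ^ ((1 - 1 / β) ^ t)) ^ (β - 1) :=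
        Real.mul_rpow (by positivity) (by positivity)
    _ ≤ (K ^ t) ^ b * (((2 : ℝ) ^ j) ^ ((1 - 1 / β) ^ t)) ^ (β - 1) :=
        mul_le_mul_of_nonneg_right (Real.rpow_le_rpow_of_exponent_le hKt (by linarith)) (by positivity)
    _ = _ := by
        rw [← Real.rpow_mul hP.le]
        congr 2
        rw [pow_succ]
        have : β ≠ 0 := by linarith
        field_simp

theorem one_scale (a b : ℝ) (ha : 1 < a) (hab : a ≤ b) (R t t' : ℕ) (K A1 A2 ρ : ℝ) (hR : 4 ≤ R)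
    (hK : (b + 1) * (R + 1) ≤ K) (hA1 : 2 ^ (b + 2) + 2 * (t + 1) + 2 * (t' + 1) + 1 ≤ A1) (hA2 : A2 + 1 ≤ R)
    (hA20 : 0 ≤ A2) (hρ : 0 < ρ) (hρ4 : ρ ≤ 1 / 4) :
    ∃ (C : ℝ) (j0 : ℕ), 0 < C ∧ 3 ≤ j0 ∧ ∀ j : ℕ, j0 ≤ j → ∀ β : ℝ, a ≤ β → β ≤ b → ∀ N : ℕ,
      (j : ℝ) ^ 2 * ((2 : ℝ) ^ j) ^ b ≤ N → ∀ F : Finset ℕ,
        (∀ z ∈ F, ∃ c ∈ BadE R K A1 A2 t t' β j ρ, β + 1 / (3 * j) ≤ c ∧ c ≤ β + 2 / (3 * j) ∧ c ∈ MR.cell N z) →
        (F.card : ℝ) ≤ N * (C * (j : ℝ) ^ (2 + 2 * (t + t' + 2)) *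
          ((2 : ℝ) ^ j) ^ (β * (2 * (1 - 1 / β) ^ (t + 1) + (1 - 1 / β) ^ (t' + 1) - 1))) := by
  classical
  have hR0 : (4 : ℝ) ≤ R := by exact_mod_cast hR
  have hb1 : 1 < b := lt_of_lt_of_le ha hab
  have hK1 : 1 ≤ K := by nlinarith
  obtain ⟨G1, hG1⟩ : ∃ G1 : ℝ, G1 = 4 * (b + 1) * ((R : ℝ) + 1) ^ b := ⟨_, rfl⟩
  have hG11 : 1 ≤ G1 := by
    rw [hG1]
    have h1 : (1 : ℝ) ≤ ((R : ℝ) + 1) ^ b := Real.one_le_rpow (by linarith) (by linarith)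
    nlinarith
  obtain ⟨C1, Λ1, H1, hC1, hΛ1, hH1, hVV⟩ := VV_int b K G1 R t hb1 hK1 hG11
  obtain ⟨Λ, hΛ⟩ : ∃ Λ : ℝ, Λ = max Λ1 (2 * (2 * K) ^ (b + 1)) := ⟨_, rfl⟩
  have hΛa : Λ1 ≤ Λ := by rw [hΛ]; exact le_max_left _ _
  have hΛb : 2 * (2 * K) ^ (b + 1) ≤ Λ := by rw [hΛ]; exact le_max_right _ _
  obtain ⟨jf, hjf1, hfacts⟩ := facts a b K Λ ha hab hK1 (max t t')
  obtain ⟨HS, hHS, hsp⟩ := sep b K t' hK1
  obtain ⟨Cx, hCx, hX⟩ := card_XS_le b K R t hK1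
  obtain ⟨κy, hκy, hY⟩ := card_YS_ge b K t hK1
  obtain ⟨κz, hκz, hZ⟩ := card_YS_ge b K t' hK1
  obtain ⟨Cst, hCst⟩ : ∃ Cst : ℝ, Cst = ((2 * t + t' + 3 : ℕ) : ℝ) * ((R : ℝ) ^ (b + 1) * 2 * (Real.log R + 1)) := ⟨_, rfl⟩
  have hlogR : 0 ≤ Real.log R := Real.log_nonneg (by linarith)
  have hCst0 : 0 < Cst := by rw [hCst]; positivity
  refine ⟨2 * C1 * G1 ^ 2 * Cx / (κy * κz * ρ ^ 3) * (((K ^ t) ^ b) ^ 2 * (K ^ t') ^ b),
    max (max jf 3) (max ⌈H1⌉₊ (max ⌈HS⌉₊ ⌈Cst / ρ⌉₊)), by positivity, (le_max_right jf 3).trans (le_max_left _ _),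
    fun j hj β hβa hβb N hN F hF => ?_⟩
  have hj1 : jf ≤ j := (le_max_left _ _).trans ((le_max_left _ _).trans hj)
  have hj3 : 3 ≤ j := (le_max_right _ _).trans ((le_max_left _ _).trans hj)
  have hjH1 : H1 ≤ j := Nat.le_of_ceil_le ((le_max_left _ _).trans ((le_max_right _ _).trans hj))
  have hjHS : HS ≤ j :=
    Nat.le_of_ceil_le ((le_max_left _ _).trans ((le_max_right _ _).trans ((le_max_right _ _).trans hj)))
  have hjst : Cst / ρ ≤ j :=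
    Nat.le_of_ceil_le ((le_max_right _ _).trans ((le_max_right _ _).trans ((le_max_right _ _).trans hj)))
  have hj3r : (3 : ℝ) ≤ j := by exact_mod_cast hj3
  have hj0 : (0 : ℝ) < j := by linarith
  have hβ1 : 1 < β := lt_of_lt_of_le ha hβa
  obtain ⟨hSF, h32⟩ := hfacts j hj1 β hβa hβb
  set p := pp K β j with hp
  have hP1 : (1 : ℝ) ≤ 2 ^ j := one_le_pow₀ (by norm_num)
  have hPb : 1 ≤ ((2 : ℝ) ^ j) ^ b := Real.one_le_rpow hP1 (by linarith)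
  have hNj : 3 * (j : ℝ) ≤ N := by
    refine le_trans ?_ hN
    nlinarith
  have hN0 : (0 : ℝ) < N := by linarith
  have hNpos : 0 < N := by exact_mod_cast hN0
  have hΛ8 : 8 ≤ Λ := hΛ1.trans hΛa
  have hjinv : 1 / (N : ℝ) ≤ 1 / (3 * j) := one_div_le_one_div_of_le (by positivity) hNj
  have h3j : 3 * (1 / (3 * (j : ℝ))) = 1 / j := by field_simp
  have h2j : 2 / (3 * (j : ℝ)) = 2 * (1 / (3 * (j : ℝ))) := by ring
  have h3j0 : 0 < 1 / (3 * (j : ℝ)) := by positivity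
  set g : ℝ := G1 * p t ^ (β - 1) with hg
  have hSFβ := hSF β (le_refl _) (by linarith [show (0 : ℝ) ≤ 1 / j by positivity])
  have hbig : ∀ i ≤ max t t', 8 ≤ p i := fun i hi => hΛ8.trans (hSFβ.big i hi)
  have hpt : 1 ≤ p t := by linarith [hbig t (le_max_left _ _)]
  have hpt' : 1 ≤ p t' := by linarith [hbig t' (le_max_right _ _)]
  have hq : 0 < p t ^ (β - 1) := by positivity
  have hq' : 0 < p t' ^ (β - 1) := by positivity
  have hg1 : 1 ≤ g := one_le_mul_of_one_le_of_one_le hG11 (Real.one_le_rpow hpt (by linarith))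
  have hρg : ρ ≤ g := by linarith
  set X := XS R (t + 1) p with hXd
  set Y := YS (j ^ 2) (t + 1) p with hYd
  set Z := YS (j ^ 2) (t' + 1) p with hZd
  have hT : 0 < p 0 ^ β := by
    have h1 : p 0 = 2 ^ j := rfl
    rw [h1]
    positivity
  have hH32 : ∀ s ≤ max t t', ∀ i ≤ s, 32 * ((j ^ 2 : ℕ) : ℝ) ≤ p i := by
    intro s hs i hi
    push_cast
    exact h32 i (hi.trans hs)
  have hjsq1 : 1 ≤ j ^ 2 := Nat.one_le_pow _ _ (by omega)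
  have hYc := hY β j (j ^ 2) p hβ1 (by linarith) hjsq1 (hSFβ.mono (by linarith) (by linarith) (le_max_left _ _))
    (hH32 t (le_max_left _ _))
  have hZc := hZ β j (j ^ 2) p hβ1 (by linarith) hjsq1 (hSFβ.mono (by linarith) (by linarith) (le_max_right _ _))
    (hH32 t' (le_max_right _ _))
  have hXc := hX β j p hβ1 (by linarith) (hSFβ.mono (by linarith) (by linarith) (le_max_left _ _))
  have hHp : (0 : ℝ) < ((j ^ 2 : ℕ) : ℝ) := by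
    push_cast
    positivity
  have hYpos : (0 : ℝ) < (Y.card : ℝ) := by
    by_contra h
    have h1 : (Y.card : ℝ) = 0 := le_antisymm (not_lt.1 h) (Nat.cast_nonneg _)
    rw [h1] at hYc
    have : 0 < κy * p 0 ^ β := by positivity
    linarith
  have hZpos : (0 : ℝ) < (Z.card : ℝ) := by
    by_contra h
    have h1 : (Z.card : ℝ) = 0 := le_antisymm (not_lt.1 h) (Nat.cast_nonneg _)
    rw [h1] at hZc
    have : 0 < κz * p 0 ^ β := by positivity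
    linarith
  -- the lower bound on the cells
  set W : ℝ := (Z.card : ℝ) * (2 * ρ) * (ρ / g * (Y.card / 2)) ^ 2 with hW
  have hW0 : 0 < W := by
    simp only [hW]
    have : 0 < g := by linarith
    positivity
  have hstab : ((2 * t + t' + 3 : ℕ) : ℝ) * ((R * (2 : ℝ) ^ j) ^ (β + 1 / j) * Real.log (R * (2 : ℝ) ^ j)) * (1 / N) ≤ ρ := by
    have h1 : (R * (2 : ℝ) ^ j) ^ (β + 1 / j) ≤ (R : ℝ) ^ (b + 1) * 2 * ((2 : ℝ) ^ j) ^ b := by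
      rw [Real.mul_rpow (by linarith) (by positivity)]
      have h2 : (R : ℝ) ^ (β + 1 / j) ≤ (R : ℝ) ^ (b + 1) := by
        refine Real.rpow_le_rpow_of_exponent_le (by linarith) ?_
        have : 1 / (j : ℝ) ≤ 1 := by
          rw [div_le_one hj0]
          linarith
        linarith
      have h3 : ((2 : ℝ) ^ j) ^ (β + 1 / j) ≤ 2 * ((2 : ℝ) ^ j) ^ b := by
        refine (pow_le_two (β := β) (by omega) (by linarith [show (0 : ℝ) ≤ 1 / j by positivity]) (le_refl _) hP1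
          (le_refl _)).trans ?_
        exact mul_le_mul_of_nonneg_left (Real.rpow_le_rpow_of_exponent_le hP1 hβb) (by norm_num)
      calc _ ≤ (R : ℝ) ^ (b + 1) * (2 * ((2 : ℝ) ^ j) ^ b) := mul_le_mul h2 h3 (by positivity) (by positivity)
        _ = _ := by ring
    have h2 : Real.log (R * (2 : ℝ) ^ j) ≤ (Real.log R + 1) * j := by
      rw [Real.log_mul (by linarith) (by positivity), Real.log_pow]
      have h4 : Real.log 2 ≤ 1 := by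
        have := Real.log_two_lt_d9
        linarith
      nlinarith
    have h2' : 0 ≤ Real.log (R * (2 : ℝ) ^ j) := Real.log_nonneg (by nlinarith)
    have h3 : (R * (2 : ℝ) ^ j) ^ (β + 1 / j) * Real.log (R * (2 : ℝ) ^ j) ≤
        (R : ℝ) ^ (b + 1) * 2 * ((2 : ℝ) ^ j) ^ b * ((Real.log R + 1) * j) := mul_le_mul h1 h2 h2' (by positivity)
    have h4 : ((2 * t + t' + 3 : ℕ) : ℝ) * ((R * (2 : ℝ) ^ j) ^ (β + 1 / j) * Real.log (R * (2 : ℝ) ^ j)) ≤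
        Cst * (j * ((2 : ℝ) ^ j) ^ b) := by
      refine (mul_le_mul_of_nonneg_left h3 (Nat.cast_nonneg _)).trans (le_of_eq ?_)
      rw [hCst]
      ring
    rw [mul_one_div, div_le_iff₀ hN0]
    refine h4.trans ?_
    rw [div_le_iff₀ hρ] at hjst
    calc Cst * (j * ((2 : ℝ) ^ j) ^ b) ≤ (j * ρ) * (j * ((2 : ℝ) ^ j) ^ b) :=
          mul_le_mul_of_nonneg_right hjst (by positivity)
      _ = ρ * ((j : ℝ) ^ 2 * ((2 : ℝ) ^ j) ^ b) := by ring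
      _ ≤ ρ * N := mul_le_mul_of_nonneg_left hN hρ.le
  have hcells : ∀ z ∈ F, MR.cell N z ⊆ {c | W ≤ VV ρ g X Y (fun u => EE u c) (fun v => EE v c)} ∩ Set.Icc β (β + 1 / j) := by
    intro z hz c' hc'
    obtain ⟨c, hc, h1, h2, h3⟩ := hF z hz
    unfold MR.cell at h3 hc'
    rw [Set.mem_Ico] at h3 hc'
    have e1 : ((z : ℝ) + 1) / N = (z : ℝ) / N + 1 / N := by ring
    rw [e1] at h3 hc'
    have h4 : |c' - c| ≤ 1 / N := by
      rw [abs_le]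
      constructor <;> linarith [h3.1, h3.2, hc'.1, hc'.2]
    have h5 := abs_le.1 h4
    rw [h2j] at h2
    have h6 : β ≤ c' := by linarith [h5.1]
    have h7 : c' ≤ β + 1 / j := by linarith [h5.2]
    refine ⟨?_, h6, h7⟩
    have hsep' : ∀ z ∈ YS (j ^ 2) (t' + 1) (pp K β j), ∀ z' ∈ YS (j ^ 2) (t' + 1) (pp K β j), z ≠ z' →
        1 ≤ |S c' z - S c' z'| := by
      refine hsp c' j (j ^ 2) p (by linarith) ?_ ?_ ((hSF c' h6 h7).mono hΛ8 (by linarith) (le_max_right _ _))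
      · have : 1 / (j : ℝ) ≤ 1 := by
          rw [div_le_one hj0]
          linarith
        linarith
      · push_cast
        nlinarith
    exact VV_ge (by omega) hβ1 hβb hR hK hΛb hΛ8 hρ hρ4 hρg (by rw [hg, hG1]) hA1 hA2 hA20 (by linarith) (by linarith) h6 h7 h4
      hstab (hSF c' h6 h7) hsep' hc
  have hcont : Continuous fun c => VV ρ g X Y (fun u => EE u c) (fun v => EE v c) :=
    continuous_VV hρ hρg X Y (fun u => EE u) (fun v => EE v) (fun u => continuous_EE u) (fun v => continuous_EE v)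
  have h1 := (cells_le N hNpos F _ hcells).trans (markov hcont (fun c => VV_nonneg hρ hρg X Y _ _)
    (by linarith [show (0 : ℝ) ≤ 1 / j by positivity]) hW0)
  have hI0 : 0 ≤ ∫ c in β..(β + 1 / j), VV ρ g X Y (fun u => EE u c) (fun v => EE v c) :=
    intervalIntegral.integral_nonneg (by linarith [show (0 : ℝ) ≤ 1 / j by positivity]) fun c _ => VV_nonneg hρ hρg X Y _ _
  rw [ENNReal.ofReal_le_ofReal_iff (by positivity)] at h1
  have h2 := hVV β j hβ1 hβb (by omega) hjH1 (fun c hc1 hc2 => (hSF c hc1 hc2).mono hΛa (by linarith) (le_max_left _ _)) ρ hρ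
    (by linarith)
  have h3 := h1.trans (div_le_div_of_nonneg_right h2 hW0.le)
  have h4 := alg (x := (X.card : ℝ)) (y := (Y.card : ℝ)) (z := (Z.card : ℝ)) (q := p t ^ (β - 1)) (q' := p t' ^ (β - 1))
    (T := p 0 ^ β) (g := g) (G1 := G1) (C1 := C1) (Cx := Cx) (κy := κy) (κz := κz) (ρ := ρ) (J := (j : ℝ) ^ 2)
    (H1 := (((j ^ 2 : ℕ) : ℝ)) ^ (t + 1)) (H2 := (((j ^ 2 : ℕ) : ℝ)) ^ (t' + 1)) (Nat.cast_nonneg _) hYpos hZpos hq hq' hT
    (by linarith) hC1 hCx hκy hκz hρ (by positivity) (by positivity) (by positivity) hXc hYc hZc hg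
  have h5 := h3.trans h4
  rw [div_le_iff₀ hN0] at h5
  refine h5.trans ?_
  rw [mul_comm _ (N : ℝ)]
  refine mul_le_mul_of_nonneg_left ?_ hN0.le
  -- the exponents
  have hql := q_le hK1 hβ1 hβb j t
  have hql' := q_le hK1 hβ1 hβb j t'
  have hPpos : (0 : ℝ) < 2 ^ j := by positivity
  have h6 : (p t ^ (β - 1)) ^ 2 * p t' ^ (β - 1) / p 0 ^ β ≤ ((K ^ t) ^ b) ^ 2 * (K ^ t') ^ b *
      ((2 : ℝ) ^ j) ^ (β * (2 * (1 - 1 / β) ^ (t + 1) + (1 - 1 / β) ^ (t' + 1) - 1)) := by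
    rw [div_le_iff₀ hT]
    have h7 : (p t ^ (β - 1)) ^ 2 * p t' ^ (β - 1) ≤
        ((K ^ t) ^ b * ((2 : ℝ) ^ j) ^ (β * (1 - 1 / β) ^ (t + 1))) ^ 2 *
          ((K ^ t') ^ b * ((2 : ℝ) ^ j) ^ (β * (1 - 1 / β) ^ (t' + 1))) :=
      mul_le_mul (pow_le_pow_left₀ hq.le hql 2) hql' hq'.le (by positivity)
    refine h7.trans (le_of_eq ?_)
    have h8 : p 0 = 2 ^ j := rfl
    rw [h8]
    have h9 : ((2 : ℝ) ^ j) ^ (β * (2 * (1 - 1 / β) ^ (t + 1) + (1 - 1 / β) ^ (t' + 1) - 1)) * ((2 : ℝ) ^ j) ^ β =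
        (((2 : ℝ) ^ j) ^ (β * (1 - 1 / β) ^ (t + 1))) ^ 2 * ((2 : ℝ) ^ j) ^ (β * (1 - 1 / β) ^ (t' + 1)) := by
      rw [← Real.rpow_add hPpos, ← Real.rpow_natCast (((2 : ℝ) ^ j) ^ (β * (1 - 1 / β) ^ (t + 1))) 2,
        ← Real.rpow_mul hPpos.le, ← Real.rpow_add hPpos]
      congr 1
      push_cast
      ring
    calc _ = ((K ^ t) ^ b) ^ 2 * (K ^ t') ^ b * ((((2 : ℝ) ^ j) ^ (β * (1 - 1 / β) ^ (t + 1))) ^ 2 *
          ((2 : ℝ) ^ j) ^ (β * (1 - 1 / β) ^ (t' + 1))) := by ring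
      _ = _ := by rw [← h9]; ring
  have h7 : (j : ℝ) ^ 2 * ((((j ^ 2 : ℕ) : ℝ)) ^ (t + 1) * (((j ^ 2 : ℕ) : ℝ)) ^ (t' + 1)) =
      (j : ℝ) ^ (2 + 2 * (t + t' + 2)) := by
    push_cast
    rw [← pow_add, ← pow_mul, ← pow_add]
    congr 1
    ring
  calc 2 * C1 * G1 ^ 2 * Cx / (κy * κz * ρ ^ 3) * (j : ℝ) ^ 2 *
        ((((j ^ 2 : ℕ) : ℝ)) ^ (t + 1) * (((j ^ 2 : ℕ) : ℝ)) ^ (t' + 1)) * ((p t ^ (β - 1)) ^ 2 * p t' ^ (β - 1) / p 0 ^ β)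
      ≤ 2 * C1 * G1 ^ 2 * Cx / (κy * κz * ρ ^ 3) * (j : ℝ) ^ 2 *
        ((((j ^ 2 : ℕ) : ℝ)) ^ (t + 1) * (((j ^ 2 : ℕ) : ℝ)) ^ (t' + 1)) * (((K ^ t) ^ b) ^ 2 * (K ^ t') ^ b *
      ((2 : ℝ) ^ j) ^ (β * (2 * (1 - 1 / β) ^ (t + 1) + (1 - 1 / β) ^ (t' + 1) - 1))) :=
        mul_le_mul_of_nonneg_left h6 (by positivity)
    _ = _ := by rw [← h7]; ring

end Pool.Agent.D0H17.GE
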