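import Pool.Agent.D0H17.GE.One

set_option autoImplicit false

/-! The average of the second moment at one scale. -/

namespace Pool.Agent.D0H17.GE

open Finset MeasureTheory

theorem VV_int (b K G1 : ℝ) (R t : ℕ) (hb : 1 < b) (hK : 1 ≤ K) (hG1 : 1 ≤ G1) : ∃ C Λ H0 : ℝ, 0 < C ∧ 8 ≤ Λ ∧ 0 < H0 ∧
    ∀ (β : ℝ) (j : ℕ), 1 < β → β ≤ b → 1 ≤ j → H0 ≤ j → (∀ c : ℝ, β ≤ c → c ≤ β + 1 / j → SF Λ K c j t (pp K β j)) →
      ∀ ρ : ℝ, 0 < ρ → ρ ≤ 1 →
        ∫ c in β..(β + 1 / j), VV ρ (G1 * pp K β j t ^ (β - 1)) (XS R (t + 1) (pp K β j)) (YS (j ^ 2) (t + 1) (pp K β j))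
          (fun u => EE u c) (fun v => EE v c) ≤
          ((XS R (t + 1) (pp K β j)).card : ℝ) * (YS (j ^ 2) (t + 1) (pp K β j)).card * (C * (j : ℝ) ^ 2) := by
  classical
  obtain ⟨C0, hC0, hmult⟩ := mult b K (3 * G1) R t hK (by linarith)
  obtain ⟨κ, M, ΛT, HT, hκ, hM, hΛT, hHT, htr⟩ := transv b K (2 * G1) R t hK (by linarith)
  obtain ⟨HS, hHS, hsp⟩ := sep b K t hK
  have hlog3 : 0 ≤ Real.log (3 * ((t : ℝ) + 1)) := Real.log_nonneg (by
    have : (0 : ℝ) ≤ t := Nat.cast_nonneg t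
    linarith)
  obtain ⟨CL, hCL⟩ : ∃ CL : ℝ, CL = 4 * (1 + Real.log (3 * ((t : ℝ) + 1)) + b) := ⟨_, rfl⟩
  have hCL0 : 0 < CL := by rw [hCL]; linarith
  refine ⟨C0 * (4 + 16 * (2 / κ + M) * CL), ΛT, max HT HS, by positivity, hΛT, lt_of_lt_of_le hHT (le_max_left _ _),
    fun β j hβ hβb hj hHj hSF ρ hρ hρ1 => ?_⟩
  set p := pp K β j with hp
  set g : ℝ := G1 * p t ^ (β - 1) with hg
  have hj0 : (0 : ℝ) < j := by exact_mod_cast hj
  have hj1r : (1 : ℝ) ≤ j := by exact_mod_cast hj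
  have hj1 : 1 / (j : ℝ) ≤ 1 := by
    rw [div_le_one hj0]
    exact hj1r
  have hjp : 0 ≤ 1 / (j : ℝ) := by positivity
  have hSFβ := hSF β (le_refl _) (by linarith)
  have hbig : ∀ i ≤ t, 8 ≤ p i := fun i hi => hΛT.trans (hSFβ.big i hi)
  have hpt : 1 ≤ p t := by linarith [hbig t (le_refl _)]
  have hpt2 : p t ≤ 2 ^ j := hSFβ.top t (le_refl _)
  have hpβ : 1 ≤ p t ^ (β - 1) := Real.one_le_rpow hpt (by linarith)
  have hg1 : 1 ≤ g := one_le_mul_of_one_le_of_one_le hG1 hpβ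
  have hρg : ρ ≤ g := by linarith
  have hP1 : (1 : ℝ) ≤ 2 ^ j := one_le_pow₀ (by norm_num)
  have hu1 : ∀ u ∈ XS R (t + 1) p, ∀ i, 1 ≤ u i := by
    intro u hu i
    have h1 := ((mem_XS (fun i => by have := hbig i (by have := i.2; omega); linarith)).1 hu i).1
    have h2 := hbig i (by have := i.2; omega)
    have h3 : (1 : ℝ) ≤ u i := by linarith
    exact_mod_cast h3
  have hv1 : ∀ v ∈ YS (j ^ 2) (t + 1) p, ∀ i, 1 ≤ v i := by
    intro v hv i
    have h1 := (mem_YS (fun i => by have := hbig i (by have := i.2; omega); linarith) hv i).1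
    have h2 := hbig i (by have := i.2; omega)
    have h3 : (1 : ℝ) ≤ v i := by linarith
    exact_mod_cast h3
  have hpc : ∀ c, β ≤ c → c ≤ β + 1 / j → p t ^ (β - 1) ≤ p t ^ (c - 1) := fun c h1 _ =>
    Real.rpow_le_rpow_of_exponent_le hpt (by linarith)
  have hHj1 : HT ≤ j := (le_max_left _ _).trans hHj
  have hHj2 : HS ≤ j := (le_max_right _ _).trans hHj
  have hH1 : HT * j ≤ ((j ^ 2 : ℕ) : ℝ) := by
    push_cast
    nlinarith
  have hH2 : HS ≤ ((j ^ 2 : ℕ) : ℝ) := by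
    push_cast
    nlinarith
  have hsepβ : ∀ v ∈ YS (j ^ 2) (t + 1) p, ∀ v' ∈ YS (j ^ 2) (t + 1) p, v ≠ v' → 1 ≤ |S β v - S β v'| :=
    hsp β j (j ^ 2) p hβ (by linarith) hH2 (hSFβ.mono hΛT (by linarith) (le_refl _))
  -- the harmonic sum
  set N' : ℕ := ⌈((t : ℝ) + 1) * (2 * ((2 : ℝ) ^ j) ^ β)⌉₊ with hN'
  have hPβ : 1 ≤ ((2 : ℝ) ^ j) ^ β := Real.one_le_rpow hP1 (by linarith)
  have ht0 : (0 : ℝ) ≤ t := Nat.cast_nonneg t
  have hN'1 : 1 ≤ ((t : ℝ) + 1) * (2 * ((2 : ℝ) ^ j) ^ β) := by nlinarith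
  have hlogN : 4 * (1 + Real.log N') ≤ CL * j := by
    have h1 : (N' : ℝ) ≤ 3 * ((t : ℝ) + 1) * ((2 : ℝ) ^ j) ^ β := by
      have h2 : (N' : ℝ) < ((t : ℝ) + 1) * (2 * ((2 : ℝ) ^ j) ^ β) + 1 := Nat.ceil_lt_add_one (by linarith)
      nlinarith
    have h2 : (0 : ℝ) < N' := by
      have : ((t : ℝ) + 1) * (2 * ((2 : ℝ) ^ j) ^ β) ≤ (N' : ℝ) := Nat.le_ceil _
      linarith
    have h3 : Real.log N' ≤ Real.log (3 * ((t : ℝ) + 1)) + b * j := by
      refine (Real.log_le_log h2 h1).trans ?_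
      rw [Real.log_mul (by positivity) (by positivity), Real.log_rpow (by positivity), Real.log_pow]
      have h4 : Real.log 2 ≤ 1 := by
        have := Real.log_two_lt_d9
        linarith
      have h5 : 0 ≤ Real.log 2 := Real.log_nonneg (by norm_num)
      have h6 : β * (j * Real.log 2) ≤ b * (j * 1) := by
        refine mul_le_mul hβb (mul_le_mul_of_nonneg_left h4 hj0.le) (by positivity) (by linarith)
      linarith
    rw [hCL]
    have h4 : Real.log (3 * ((t : ℝ) + 1)) ≤ Real.log (3 * ((t : ℝ) + 1)) * j := le_mul_of_one_le_right hlog3 hj1r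
    nlinarith
  have hsm := second_moment (ρ := ρ) (g := g) hρ hρg (p0 := β) (p1 := β + 1 / j) (by linarith) (XS R (t + 1) p)
    (YS (j ^ 2) (t + 1) p) (fun u => EE u) (fun v => EE v) (fun u => continuous_EE u) (fun v => continuous_EE v) C0 hC0.le
    ?_ (fun v v' => |S β v - S β v'|) (CL * j) κ (M * (j : ℝ) ^ 2) hκ (by positivity) ?_ ?_ ?_
  · refine hsm.trans ?_
    refine mul_le_mul_of_nonneg_left ?_ (by positivity)
    rw [mul_assoc C0]
    refine mul_le_mul_of_nonneg_left ?_ hC0.le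
    have e1 : β + 1 / (j : ℝ) - β = 1 / j := by ring
    rw [e1]
    have h1 : 4 * ρ * (1 / (j : ℝ)) ≤ 4 * (j : ℝ) ^ 2 := by
      have h2 : (1 : ℝ) ≤ (j : ℝ) ^ 2 := one_le_pow₀ hj1r
      have h3 : ρ * (1 / (j : ℝ)) ≤ 1 * 1 := mul_le_mul hρ1 hj1 hjp (by norm_num)
      nlinarith
    have h2 : M * (j : ℝ) ^ 2 * (1 / j) = M * j := by field_simp
    rw [h2]
    have h3 : 16 * ρ ^ 2 * (2 / κ + M * j) * (CL * j) ≤ 16 * (2 / κ + M) * CL * (j : ℝ) ^ 2 := by
      have h4 : ρ ^ 2 ≤ 1 := pow_le_one₀ hρ.le hρ1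
      have h5 : 2 / κ + M * j ≤ (2 / κ + M) * j := by
        have h6 : 2 / κ ≤ 2 / κ * j := le_mul_of_one_le_right (by positivity) hj1r
        nlinarith
      calc 16 * ρ ^ 2 * (2 / κ + M * j) * (CL * j) ≤ 16 * 1 * ((2 / κ + M) * j) * (CL * j) := by
            refine mul_le_mul_of_nonneg_right ?_ (by positivity)
            exact mul_le_mul (by linarith) h5 (by positivity) (by norm_num)
        _ = _ := by ring
    linarith
  · intro c hc w
    have hc1 : 1 < c := lt_of_lt_of_le hβ hc.1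
    have hsf := (hSF c hc.1 hc.2).mono (Λ' := 1) (T' := t) (by linarith) (by linarith) (le_refl _)
    have h1 := hmult c j p hc1 (by linarith [hc.2]) hsf w (3 * g) (by
      rw [hg, mul_assoc]
      have := hpc c hc.1 hc.2
      have h2 : G1 * p t ^ (β - 1) ≤ G1 * p t ^ (c - 1) := mul_le_mul_of_nonneg_left this (by linarith)
      linarith)
    refine le_trans ?_ h1
    have h2 : ((XS R (t + 1) p).filter fun u => |w - EE u c| ≤ 2 * g).card ≤
        ((XS R (t + 1) p).filter fun u => |w - S c u| < 3 * g).card := by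
      refine card_le_card fun u hu => ?_
      rw [mem_filter] at hu ⊢
      refine ⟨hu.1, ?_⟩
      rw [EE_eq (hu1 u hu.1)] at hu
      linarith [hu.2]
    exact_mod_cast h2
  · intro v hv v' hv' hne
    have := hsepβ v hv v' hv' (Ne.symm hne)
    linarith
  · intro v hv
    refine le_trans ?_ hlogN
    have hN'b : ∀ v ∈ YS (j ^ 2) (t + 1) p, S β v ≤ (N' : ℝ) := by
      intro v hv
      have h1 := YS_S_le (β := β) (c := β) hj (le_refl _) (by linarith) (by linarith)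
        (fun i => by have := hbig i (by have := i.2; omega); linarith) (fun i => hSFβ.top i (by have := i.2; omega)) hv
      refine h1.trans ?_
      push_cast
      exact Nat.le_ceil _
    have h2 := harmonic_sep (YS (j ^ 2) (t + 1) p) (fun v => S β v) N' (fun v _ => S_nonneg β v) hN'b hsepβ v hv
    refine le_trans (le_of_eq ?_) h2
    refine sum_congr ?_ fun _ _ => rfl
    ext w
    simp only [mem_filter]
  · intro u hu u' hu' v hv v' hv' hne
    refine ⟨fun c => EE1 u c + EE1 v c - (EE1 u' c + EE1 v' c), fun c => EE2 u c + EE2 v c - (EE2 u' c + EE2 v' c),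
      fun c => ((hasDerivAt_EE u c).add (hasDerivAt_EE v c)).sub ((hasDerivAt_EE u' c).add (hasDerivAt_EE v' c)),
      fun c => ((hasDerivAt_EE1 u c).add (hasDerivAt_EE1 v c)).sub ((hasDerivAt_EE1 u' c).add (hasDerivAt_EE1 v' c)),
      ((continuous_EE2 u).add (continuous_EE2 v)).sub ((continuous_EE2 u').add (continuous_EE2 v')), ?_⟩
    intro c hc hle
    have hc1 : 1 < c := lt_of_lt_of_le hβ hc.1
    simp only [EE_eq (hu1 u hu), EE_eq (hu1 u' hu'), EE_eq (hv1 v hv), EE_eq (hv1 v' hv')] at hle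
    simp only [EE1_eq (hu1 u hu), EE1_eq (hu1 u' hu'), EE1_eq (hv1 v hv), EE1_eq (hv1 v' hv'), EE2_eq (hu1 u hu),
      EE2_eq (hu1 u' hu'), EE2_eq (hv1 v hv), EE2_eq (hv1 v' hv')]
    refine htr β c j (j ^ 2) p hβ hc.1 (by linarith [hc.2]) hj hH1 (hSF c hc.1 hc.2) hSFβ u hu u' hu' v hv v' hv'
      (Ne.symm hne) (hle.trans ?_)
    rw [hg]
    have h2 : G1 * p t ^ (β - 1) ≤ G1 * p t ^ (c - 1) := mul_le_mul_of_nonneg_left (hpc c hc.1 hc.2) (by linarith)
    linarith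

end Pool.Agent.D0H17.GE
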